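import Mathlib

/-!
# MP_adbfe6_an, towers: the abstract theorem

Transitive sets of triangular maps of a finite product of compact groups have no invariant functions.
-/

open MeasureTheory Set Filter Topology Function

namespace Pool.PSTow

section Gen

variable {R : Type} [MetricSpace R] [CompactSpace R] [MeasurableSpace R] [BorelSpace R]

/-- The maps in `T` preserve `ρ` and every transitive subset of `T` has only constant invariant
integrable functions. -/
def TE (ρ : Measure R) (T : Set C(R, R)) : Prop :=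
  (∀ g ∈ T, MeasurePreserving g ρ ρ) ∧
  ∀ G ⊆ T, (∀ w w' : R, ∃ g ∈ G, g w = w') → ∀ φ : R → ℝ, Measurable φ → Integrable φ ρ →
    (∀ g ∈ G, ∀ᵐ w ∂ρ, φ (g w) = φ w) → ∃ c : ℝ, ∀ᵐ w ∂ρ, φ w = c

theorem closed_inv (ρ : Measure R) [IsProbabilityMeasure ρ] {φ : R → ℝ} (hφ : Integrable φ ρ)
    (g : ℕ → C(R, R)) (g₀ : C(R, R)) (hg : Tendsto g atTop (𝓝 g₀))
    (hm : ∀ n, MeasurePreserving (g n) ρ ρ) (hm₀ : MeasurePreserving g₀ ρ ρ)
    (h : ∀ n, ∀ᵐ w ∂ρ, φ (g n w) = φ w) : ∀ᵐ w ∂ρ, φ (g₀ w) = φ w := by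
  have hmem : MemLp φ 1 ρ := memLp_one_iff_integrable.2 hφ
  set F : Lp ℝ 1 ρ := hmem.toLp φ with hF
  have hcoe : ⇑F =ᵐ[ρ] φ := hmem.coeFn_toLp
  have hcomp : ∀ (k : C(R, R)) (hk : MeasurePreserving k ρ ρ),
      ⇑(Lp.compMeasurePreserving k hk F) =ᵐ[ρ] fun w => φ (k w) := by
    intro k hk
    refine (Lp.coeFn_compMeasurePreserving F hk).trans ?_
    exact hk.quasiMeasurePreserving.ae_eq_comp hcoe
  have hn : ∀ n, Lp.compMeasurePreserving (g n) (hm n) F = F := by
    intro n
    refine Lp.ext ?_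
    have h1 : (fun w => φ (g n w)) =ᵐ[ρ] φ := h n
    exact (hcomp (g n) (hm n)).trans (h1.trans hcoe.symm)
  have hlim := Filter.Tendsto.compMeasurePreservingLp (p := 1) (f := fun _ : ℕ => F) (f₀ := F)
    tendsto_const_nhds hg hm hm₀ (by simp)
  simp only [hn] at hlim
  have h0 : Lp.compMeasurePreserving g₀ hm₀ F = F := tendsto_nhds_unique hlim tendsto_const_nhds
  have h1 := hcomp g₀ hm₀
  rw [h0] at h1
  exact h1.symm.trans hcoe

end Gen

section Step

variable {Y R : Type} [MetricSpace Y] [CompactSpace Y] [MeasurableSpace Y] [BorelSpace Y]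
  [MetricSpace R] [CompactSpace R] [MeasurableSpace R] [BorelSpace R]

/-- skew products with first component in `A` and second components in `T` -/
def Sk (A : Set C(Y, Y)) (T : Set C(R, R)) : Set C(Y × R, Y × R) :=
  {g | (∃ a ∈ A, ∀ y w, (g (y, w)).1 = a y) ∧ ∀ y, ∃ h ∈ T, ∀ w, (g (y, w)).2 = h w}

/-- second component over `y` -/
def sec (y : Y) (g : C(Y × R, Y × R)) : C(R, R) := ⟨fun w => (g (y, w)).2, by fun_prop⟩

theorem continuous_sec (y : Y) : Continuous (sec (R := R) y) := by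
  have h : Continuous fun g : C(Y × R, Y × R) =>
      (ContinuousMap.snd : C(Y × R, R)).comp
        (g.comp (⟨fun w => (y, w), by fun_prop⟩ : C(R, Y × R))) :=
    (ContinuousMap.continuous_postcomp _).comp (ContinuousMap.continuous_precomp _)
  exact h

theorem TE_step (μ : Measure Y) [IsProbabilityMeasure μ] (ρ : Measure R) [IsProbabilityMeasure ρ]
    (A : Set C(Y, Y)) (T : Set C(R, R)) (hA : TE μ A)
    (hfree : ∀ a ∈ A, ∀ y, a y = y → ∀ y', a y' = y') (hT : TE ρ T) :
    TE (μ.prod ρ) (Sk A T) := by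
  have hsec : ∀ g ∈ Sk A T, ∀ y, sec y g ∈ T := by
    intro g hg y
    obtain ⟨h, hh, heq⟩ := hg.2 y
    have : sec y g = h := ContinuousMap.ext fun w => heq w
    rw [this]; exact hh
  refine ⟨?_, ?_⟩
  · intro g hg
    obtain ⟨⟨a, ha, hga⟩, -⟩ := id hg
    have h1 : MeasurePreserving (fun p : Y × R => (a p.1, (g (p.1, p.2)).2)) (μ.prod ρ) (μ.prod ρ) := by
      refine MeasurePreserving.skew_product (g := fun y w => (g (y, w)).2) (hA.1 a ha) ?_ ?_
      · exact (by fun_prop : Continuous fun p : Y × R => (g (p.1, p.2)).2).measurable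
      · exact Eventually.of_forall fun y => (hT.1 _ (hsec g hg y)).map_eq
    have h2 : (⇑g : Y × R → Y × R) = fun p => (a p.1, (g (p.1, p.2)).2) := by
      funext p
      exact Prod.ext (hga p.1 p.2) rfl
    rw [h2]; exact h1
  · intro G hG htr φ hφm hφ hinv
    -- the maps over the identity
    set P : Set C(Y × R, Y × R) := {g | g ∈ G ∧ ∀ y w, (g (y, w)).1 = y} with hP
    obtain ⟨D, hDc, hDd⟩ := TopologicalSpace.exists_countable_dense P
    have hae1 : ∀ᵐ y ∂μ, ∀ d ∈ D, ∀ᵐ w ∂ρ, φ (y, sec y d.1 w) = φ (y, w) := by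
      rw [ae_ball_iff hDc]
      intro d _
      have h1 := Measure.ae_ae_of_ae_prod (hinv d.1 d.2.1)
      filter_upwards [h1] with y hy
      filter_upwards [hy] with w hw
      rw [← hw]
      congr 1
      exact Prod.ext (d.2.2 y w).symm rfl
    have hae2 : ∀ᵐ y ∂μ, Integrable (fun w => φ (y, w)) ρ := hφ.prod_right_ae
    have hconst : ∀ᵐ y ∂μ, ∃ c : ℝ, ∀ᵐ w ∂ρ, φ (y, w) = c := by
      filter_upwards [hae1, hae2] with y hy hyi
      refine hT.2 (sec y '' P) ?_ ?_ (fun w => φ (y, w)) (hφm.comp measurable_prodMk_left) hyi ?_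
      · rintro _ ⟨g, hg, rfl⟩
        exact hsec g (hG hg.1) y
      · intro w w'
        obtain ⟨g, hg, hgw⟩ := htr (y, w) (y, w')
        obtain ⟨⟨a, ha, hga⟩, -⟩ := id (hG hg)
        have hay : a y = y := by rw [← hga y w, hgw]
        refine ⟨sec y g, ⟨g, ⟨hg, fun y' w' => ?_⟩, rfl⟩, ?_⟩
        · rw [hga]; exact hfree a ha y hay y'
        · show (g (y, w)).2 = w'
          rw [hgw]
      · rintro _ ⟨g, hg, rfl⟩
        have hcl : (⟨g, hg⟩ : P) ∈ closure D := hDd _
        obtain ⟨d, hdD, hdlim⟩ := mem_closure_iff_seq_limit.1 hcl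
        have hlim : Tendsto (fun n => sec y (d n).1) atTop (𝓝 (sec y g)) :=
          ((continuous_sec y).tendsto g).comp
            ((continuous_subtype_val.tendsto (⟨g, hg⟩ : P)).comp hdlim)
        exact closed_inv ρ hyi (fun n => sec y (d n).1) (sec y g) hlim
          (fun n => hT.1 _ (hsec _ (hG (d n).2.1) y)) (hT.1 _ (hsec g (hG hg.1) y))
          (fun n => hy (d n) (hdD n))
    -- the function `c`
    set c : Y → ℝ := fun y => ∫ w, φ (y, w) ∂ρ with hc
    have hcm : Measurable c := (hφm.stronglyMeasurable.integral_prod_right').measurable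
    have hci : Integrable c μ := hφ.integral_prod_left
    have hφc : ∀ᵐ p ∂(μ.prod ρ), φ p = c p.1 := by
      have hms : MeasurableSet {p : Y × R | φ p = c p.1} :=
        measurableSet_eq_fun hφm (hcm.comp measurable_fst)
      refine (Measure.ae_prod_mem_iff_ae_ae_mem hms).2 ?_
      filter_upwards [hconst] with y hy
      obtain ⟨c', hc'⟩ := hy
      have h1 : c y = c' := by
        show ∫ w, φ (y, w) ∂ρ = c'
        rw [integral_congr_ae hc']
        simp
      filter_upwards [hc'] with w hw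
      show φ (y, w) = c y
      rw [h1, hw]
    have hRne : Nonempty R := nonempty_of_isProbabilityMeasure ρ
    obtain ⟨w₀⟩ := hRne
    -- invariance of `c`
    obtain ⟨c₀, hc₀⟩ := hA.2 {a | a ∈ A ∧ ∃ g ∈ G, ∀ y w, (g (y, w)).1 = a y} (fun a ha => ha.1) (by
      intro y y'
      obtain ⟨g, hg, hgw⟩ := htr (y, w₀) (y', w₀)
      obtain ⟨⟨a, ha, hga⟩, -⟩ := id (hG hg)
      exact ⟨a, ⟨ha, g, hg, hga⟩, by rw [← hga y w₀, hgw]⟩) c hcm hci (by
      rintro a ⟨ha, g, hg, hga⟩
      have h1 := Measure.ae_ae_of_ae_prod (hinv g hg)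
      filter_upwards [h1] with y hy
      have hmp := hT.1 _ (hsec g (hG hg) y)
      have h2 : ∫ w, φ (a y, sec y g w) ∂ρ = ∫ w, φ (a y, w) ∂ρ := by
        have h3 : ∫ w, φ (a y, w) ∂(Measure.map (sec y g) ρ) = ∫ w, φ (a y, sec y g w) ∂ρ :=
          integral_map hmp.measurable.aemeasurable
            (hφm.comp measurable_prodMk_left).aestronglyMeasurable
        rw [← h3, hmp.map_eq]
      show ∫ w, φ (a y, w) ∂ρ = ∫ w, φ (y, w) ∂ρ
      rw [← h2]
      refine integral_congr_ae ?_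
      filter_upwards [hy] with w hw
      rw [← hw]
      congr 1
      exact Prod.ext (hga y w).symm rfl)
    refine ⟨c₀, ?_⟩
    have h5 : ∀ᵐ p ∂(μ.prod ρ), c p.1 = c₀ :=
      (Measure.quasiMeasurePreserving_fst (μ := μ) (ν := ρ)).ae hc₀
    filter_upwards [hφc, h5] with p h1 h2
    rw [h1, h2]

end Step

section Groups

/-- left translations of a compact group -/
theorem TE_group {Y : Type} [Group Y] [MetricSpace Y] [CompactSpace Y] [IsTopologicalGroup Y]
    [MeasurableSpace Y] [BorelSpace Y] (μ : Measure Y) [IsProbabilityMeasure μ]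
    [μ.IsMulLeftInvariant] [μ.IsMulRightInvariant] :
    TE μ {a : C(Y, Y) | ∃ r : Y, ∀ y, a y = r * y} := by
  refine ⟨?_, ?_⟩
  · rintro g ⟨r, hr⟩
    have : (⇑g : Y → Y) = fun y => r * y := funext hr
    rw [this]; exact measurePreserving_mul_left μ r
  · intro G hG htr φ hφm _ hinv
    have h1 : ∀ r : Y, ∀ᵐ y ∂μ, φ (r * y) = φ y := by
      intro r
      obtain ⟨g, hg, hg1⟩ := htr 1 r
      obtain ⟨r', hr'⟩ := hG hg
      have : r' = r := by rw [← hg1, hr', mul_one]
      subst this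
      filter_upwards [hinv g hg] with y hy
      rw [← hy, hr']
    have hms : MeasurableSet {p : Y × Y | φ (p.1 * p.2) = φ p.2} :=
      measurableSet_eq_fun (hφm.comp (by fun_prop : Continuous fun p : Y × Y => p.1 * p.2).measurable)
        (hφm.comp measurable_snd)
    have h2 : ∀ᵐ p ∂(μ.prod μ), p ∈ {p : Y × Y | φ (p.1 * p.2) = φ p.2} := by
      rw [Measure.ae_prod_mem_iff_ae_ae_mem hms]
      exact Eventually.of_forall h1
    have h3 : ∀ᵐ y ∂μ, ∀ᵐ r ∂μ, φ (r * y) = φ y := by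
      have h4 : ∀ᵐ p ∂(μ.prod μ), p.swap ∈ {p : Y × Y | φ (p.1 * p.2) = φ p.2} :=
        Measure.measurePreserving_swap.quasiMeasurePreserving.ae h2
      exact Measure.ae_ae_of_ae_prod h4
    obtain ⟨y₀, hy₀⟩ := h3.exists
    refine ⟨φ y₀, ?_⟩
    have h5 := measurePreserving_mul_right μ y₀
    rw [← h5.map_eq, ae_map_iff h5.measurable.aemeasurable (measurableSet_eq_fun hφm measurable_const)]
    exact hy₀

/-- translations of the torus -/
theorem TE_addgroup {Y : Type} [AddCommGroup Y] [MetricSpace Y] [CompactSpace Y] [IsTopologicalAddGroup Y]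
    [MeasurableSpace Y] [BorelSpace Y] (μ : Measure Y) [IsProbabilityMeasure μ]
    [μ.IsAddLeftInvariant] :
    TE μ {a : C(Y, Y) | ∃ r : Y, ∀ y, a y = r + y} := by
  refine ⟨?_, ?_⟩
  · rintro g ⟨r, hr⟩
    have : (⇑g : Y → Y) = fun y => r + y := funext hr
    rw [this]; exact measurePreserving_add_left μ r
  · intro G hG htr φ hφm _ hinv
    have h1 : ∀ r : Y, ∀ᵐ y ∂μ, φ (r + y) = φ y := by
      intro r
      obtain ⟨g, hg, hg1⟩ := htr 0 r
      obtain ⟨r', hr'⟩ := hG hg
      have : r' = r := by rw [← hg1, hr', add_zero]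
      subst this
      filter_upwards [hinv g hg] with y hy
      rw [← hy, hr']
    have hms : MeasurableSet {p : Y × Y | φ (p.1 + p.2) = φ p.2} :=
      measurableSet_eq_fun (hφm.comp (by fun_prop : Continuous fun p : Y × Y => p.1 + p.2).measurable)
        (hφm.comp measurable_snd)
    have h2 : ∀ᵐ p ∂(μ.prod μ), p ∈ {p : Y × Y | φ (p.1 + p.2) = φ p.2} := by
      rw [Measure.ae_prod_mem_iff_ae_ae_mem hms]
      exact Eventually.of_forall h1
    have h3 : ∀ᵐ y ∂μ, ∀ᵐ r ∂μ, φ (r + y) = φ y := by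
      have h4 : ∀ᵐ p ∂(μ.prod μ), p.swap ∈ {p : Y × Y | φ (p.1 + p.2) = φ p.2} :=
        Measure.measurePreserving_swap.quasiMeasurePreserving.ae h2
      exact Measure.ae_ae_of_ae_prod h4
    obtain ⟨y₀, hy₀⟩ := h3.exists
    refine ⟨φ y₀, ?_⟩
    have h5 := measurePreserving_add_left μ y₀
    rw [← h5.map_eq, ae_map_iff h5.measurable.aemeasurable (measurableSet_eq_fun hφm measurable_const)]
    filter_upwards [hy₀] with r hr
    rw [add_comm]; exact hr

end Groups

end Pool.PSTow
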