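import Mathlib

/-!
# MP_adbfe6_an, towers: definitions of the statement
-/

open Function MeasureTheory

namespace Pool.PSTow

/-- the endomorphism of the torus `(ℝ/ℤ)^a` given by an integer matrix -/
def torusMap {a : ℕ} (A : Matrix (Fin a) (Fin a) ℤ) (x : Fin a → UnitAddCircle) :
    Fin a → UnitAddCircle := fun i => ∑ j, A i j • x j

/-- the linear map of `ℝ^a` given by an integer matrix -/
def linMap {a : ℕ} (A : Matrix (Fin a) (Fin a) ℤ) (v : Fin a → ℝ) : Fin a → ℝ :=
  fun i => ∑ j, (A i j : ℝ) * v j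

/-- the subspace `E` is invariant under the linear map of `A` -/
def Inv {a : ℕ} (A : Matrix (Fin a) (Fin a) ℤ) (E : Submodule ℝ (Fin a → ℝ)) : Prop :=
  ∀ v ∈ E, linMap A v ∈ E

/-- `A` contracts the subspace `E` with rate `1 / lam` -/
def Contr {a : ℕ} (A : Matrix (Fin a) (Fin a) ℤ) (E : Submodule ℝ (Fin a → ℝ)) (D lam : ℝ) :
    Prop :=
  ∀ v ∈ E, ∀ n : ℕ, ‖(linMap A)^[n] v‖ ≤ D * (1 / lam) ^ n * ‖v‖

/-- `A` is a hyperbolic matrix with inverse `B`: `ℝ^a` is the sum of an invariant subspace `Es`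
contracted by `A` with rate `1 / lam` and an invariant subspace `Eu` contracted by `B = A⁻¹` with
rate `1 / lam`, where `lam > 1`. -/
structure HypSplit {a : ℕ} (A B : Matrix (Fin a) (Fin a) ℤ) (Es Eu : Submodule ℝ (Fin a → ℝ))
    (D lam : ℝ) : Prop where
  mulAB : A * B = 1
  mulBA : B * A = 1
  sup_eq : Es ⊔ Eu = ⊤
  invs : Inv A Es ∧ Inv B Es
  invu : Inv A Eu ∧ Inv B Eu
  cons : Contr A Es D lam
  conu : Contr B Eu D lam
  one_lt : 1 < lam

/-- the phase space: a torus, times a finite product of groups `K i`, times a space `N`, with the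
maximum metric -/
abbrev Sp (a : ℕ) {k : ℕ} (K : Fin k → Type) (N : Type) : Type :=
  (Fin a → UnitAddCircle) × ((∀ i, K i) × N)

/-- the maps of `N` given by the elements of `G` -/
def Act (G N : Type) [TopologicalSpace N] [SMul G N] : Set C(N, N) := {h | ∃ g : G, ∀ w, h w = g • w}

/-- the homeomorphism `b` of `N` normalises the action of `G` on `N` -/
def Normalises (G : Type) {N : Type} [TopologicalSpace N] [SMul G N] (b : N ≃ₜ N) : Prop :=
  (∀ g : G, ∃ g' : G, ∀ w, b (g • w) = g' • b w) ∧ ∀ g : G, ∃ g' : G, ∀ w, b (g' • w) = g • b w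

/-- `G` acts on `N` by maps preserving `ν`, these maps form a closed set for uniform convergence,
and the homeomorphism `b` preserves `ν` and normalises the action -/
structure TopLevel (G : Type) {N : Type} [MetricSpace N] [MeasurableSpace N] [SMul G N]
    (ν : Measure N) (b : N ≃ₜ N) : Prop where
  pres : ∀ g : G, MeasurePreserving (fun w : N => g • w) ν ν
  closed : IsClosed (Act G N)
  bpres : MeasurePreserving b ν ν
  norm : Normalises G b

/-- `f` has the form
`f (x, y, w) = (A x, (φ_i (x, y_0, …, y_{i-1}) * β_i (y_i))_i, γ (x, y) • b w)`, with automorphisms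
`β_i` of the groups `K i` and a map `γ` to the group `G` acting on `N` -/
structure HasForm {a k : ℕ} {K : Fin k → Type} [∀ i, Group (K i)] (G : Type) {N : Type} [SMul G N]
    (A : Matrix (Fin a) (Fin a) ℤ) (b : N → N) (f : Sp a K N → Sp a K N) : Prop where
  base : ∀ z, (f z).1 = torusMap A z.1
  fibre : ∀ i : Fin k, ∃ (β : K i ≃* K i) (φ : (Fin a → UnitAddCircle) → (∀ i, K i) → K i),
    (∀ x y y', (∀ j < i, y j = y' j) → φ x y = φ x y') ∧
      ∀ z, (f z).2.1 i = φ z.1 z.2.1 * β (z.2.1 i)
  top : ∃ γ : (Fin a → UnitAddCircle) → (∀ i, K i) → G, ∀ z, (f z).2.2 = γ z.1 z.2.1 • b z.2.2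

/-- the homeomorphism `f` has the form `HasForm` -/
def IsTower {a k : ℕ} {K : Fin k → Type} [∀ i, Group (K i)] [∀ i, MetricSpace (K i)] (G : Type)
    {N : Type} [SMul G N] [MetricSpace N] (A : Matrix (Fin a) (Fin a) ℤ) (b : N ≃ₜ N)
    (f : Sp a K N ≃ₜ Sp a K N) : Prop := HasForm G A b f

/-- `f` and its inverse are Lipschitz, and their `n`-th iterates expand distances along the fibres
of `pr` at most by a factor `C * kap ^ n` -/
structure Growth {M X : Type} [MetricSpace M] (pr : M → X) (kap : ℝ) (f : M ≃ₜ M) : Prop where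
  lip : ∃ C : ℝ, ∀ z z', dist (f z) (f z') ≤ C * dist z z' ∧
    dist (f.symm z) (f.symm z') ≤ C * dist z z'
  growth : ∃ C : ℝ, ∀ (n : ℕ) (z z' : M), pr z = pr z' →
    dist (f^[n] z) (f^[n] z') ≤ C * kap ^ n * dist z z' ∧
      dist (f.symm^[n] z) (f.symm^[n] z') ≤ C * kap ^ n * dist z z'

/-- `q` is on the strong stable leaf of `p` (with rate `ρ`): the distance of the `n`-th images is
at most `C * ρ ^ n` -/
def OnLeaf {M : Type} [MetricSpace M] (f : M ≃ₜ M) (ρ : ℝ) (p q : M) : Prop :=
  ∃ C : ℝ, ∀ n : ℕ, dist (f^[n] p) (f^[n] q) ≤ C * ρ ^ n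

/-- `p` and `q` are joined by an `su`-path: finitely many steps, each of them along a strong stable
leaf of `f` or along a strong stable leaf of `f⁻¹` (a strong unstable leaf of `f`) -/
def Joined {M : Type} [MetricSpace M] (f : M ≃ₜ M) (ρ : ℝ) (p q : M) : Prop :=
  Relation.ReflTransGen (fun x y => OnLeaf f ρ x y ∨ OnLeaf f.symm ρ x y) p q

/-- essential accessibility: any two measurable sets of positive measure contain points joined by
an `su`-path -/
def EssAccessible {M : Type} [MetricSpace M] [MeasurableSpace M] (f : M ≃ₜ M) (ρ : ℝ)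
    (m : Measure M) : Prop :=
  ∀ S T : Set M, MeasurableSet S → MeasurableSet T → m S ≠ 0 → m T ≠ 0 →
    ∃ p ∈ S, ∃ q ∈ T, Joined f ρ p q

/-- any two points of `Q` are the projections of points joined by an `su`-path -/
def AccessibleModulo {M Q : Type} [MetricSpace M] (pr : M → Q) (f : M ≃ₜ M) (ρ : ℝ) : Prop :=
  ∀ q q' : Q, ∃ p p' : M, pr p = q ∧ pr p' = q' ∧ Joined f ρ p p'

/-- the hypotheses on the dynamics: growth at most `kap ^ n` along the fibres of `pr`, essential
accessibility, and (if `k > 0`) accessibility modulo the fibres of `low` -/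
structure Dynamics {M X Q : Type} [MetricSpace M] [MeasurableSpace M] (f : M ≃ₜ M) (m : Measure M)
    (pr : M → X) (low : M → Q) (k : ℕ) (kap ρ : ℝ) : Prop where
  growth : Growth pr kap f
  low : 0 < k → AccessibleModulo low f ρ
  ess : EssAccessible f ρ m

/-- the projection which forgets the last coordinate -/
def lower {a k : ℕ} {K : Fin k → Type} {N : Type} (z : Sp a K N) :
    (Fin a → UnitAddCircle) × (∀ i, K i) := (z.1, z.2.1)

/-- the product of Lebesgue measure on the torus, the measures `μ i` and the measure `ν` -/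
noncomputable def prodMeasure (a : ℕ) {k : ℕ} {K : Fin k → Type} [∀ i, MeasurableSpace (K i)]
    {N : Type} [MeasurableSpace N] (μ : ∀ i, Measure (K i)) (ν : Measure N) :
    Measure (Sp a K N) :=
  (volume : Measure (Fin a → UnitAddCircle)).prod ((Measure.pi μ).prod ν)

/-- `f` is ergodic and mixing for the measure `m` -/
def ErgodicMixing {M : Type} [MetricSpace M] [MeasurableSpace M] (f : M ≃ₜ M) (m : Measure M) :
    Prop :=
  Ergodic f m ∧ ∀ S T : Set M, MeasurableSet S → MeasurableSet T →
    Filter.Tendsto (fun n : ℕ => m (f^[n] ⁻¹' S ∩ T)) Filter.atTop (nhds (m S * m T))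

end Pool.PSTow
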