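import Pool.Agent.Work.MP_adbfe6_an.Tow.Main

/-!
# MP_adbfe6_an, towers: essential accessibility
-/

open MeasureTheory Set Filter Topology Function

namespace Pool.PSTow

section W

variable {M : Type} [MetricSpace M] [CompactSpace M]

/-- compositions of `n` elements of `L` -/
def W (L : Set C(M, M)) : ℕ → Set C(M, M)
  | 0 => {ContinuousMap.id M}
  | n + 1 => (fun p : C(M, M) × C(M, M) => p.1.comp p.2) '' (L ×ˢ W L n)

theorem W_compact {L : Set C(M, M)} (hL : IsCompact L) : ∀ n, IsCompact (W L n)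
  | 0 => isCompact_singleton
  | n + 1 => (hL.prod (W_compact hL n)).image
      ((ContinuousMap.continuous_comp' (X := M) (Y := M) (Z := M)).comp continuous_swap)

theorem W_mono {L L' : Set C(M, M)} (h : L ⊆ L') : ∀ n, W L n ⊆ W L' n
  | 0 => le_rfl
  | n + 1 => image_mono (prod_mono h (W_mono h n))

theorem path_W (L : ℕ → Set C(M, M)) (hL : Monotone L) (R : M → M → Prop)
    (hR : ∀ p q, R p q → ∃ r, ∃ g ∈ L r, g p = q) {p q : M} (h : Relation.ReflTransGen R p q) :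
    ∃ r n, ∃ g ∈ W (L r) n, g p = q := by
  induction h with
  | refl => exact ⟨0, 0, ContinuousMap.id M, rfl, rfl⟩
  | tail _ hbc ih =>
    obtain ⟨r, n, g, hg, rfl⟩ := ih
    obtain ⟨r', g', hg', rfl⟩ := hR _ _ hbc
    exact ⟨max r r', n + 1, g'.comp g, ⟨(g', g), ⟨hL (le_max_right r r') hg',
      W_mono (hL (le_max_left r r')) n hg⟩, rfl⟩, rfl⟩

end W

section

variable {a k : ℕ} {K : Fin k → Type} [∀ i, Group (K i)] [∀ i, MetricSpace (K i)]
  [∀ i, CompactSpace (K i)] [∀ i, IsTopologicalGroup (K i)]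
  {G N : Type} [Group G] [TopologicalSpace G] [IsTopologicalGroup G]
  [LocallyCompactSpace G] [SecondCountableTopology G] [T2Space G]
  [MetricSpace N] [CompactSpace N] [MulAction G N] [ContinuousSMul G N]
  [∀ i, MeasurableSpace (K i)] [∀ i, BorelSpace (K i)] [MeasurableSpace N] [BorelSpace N]

/-- the maps of the class which preserve `φ` -/
def Pres (G : Type) [Group G] [MulAction G N] (m : Measure (Sp a K N)) (φ : Sp a K N → ℝ) :
    Set C(Sp a K N, Sp a K N) := {g | g ∈ Cls a K G N ∧ ∀ᵐ z ∂m, φ (g z) = φ z}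

/-- the invertible ones -/
def PresI (G : Type) [Group G] [MulAction G N] (m : Measure (Sp a K N)) (φ : Sp a K N → ℝ) :
    Set C(Sp a K N, Sp a K N) :=
  {g | g ∈ Pres G m φ ∧ ∃ g' ∈ Pres G m φ, g'.comp g = ContinuousMap.id _}

theorem class_mp (μ : ∀ i, Measure (K i)) [∀ i, IsProbabilityMeasure (μ i)]
    [∀ i, (μ i).IsMulLeftInvariant] [∀ i, (μ i).IsMulRightInvariant] (ν : Measure N)
    [IsProbabilityMeasure ν] (hG : ∀ g : G, MeasurePreserving (fun w : N => g • w) ν ν)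
    {g : C(Sp a K N, Sp a K N)} (hg : g ∈ Cls a K G N) :
    MeasurePreserving g ((volume : Measure (Fin a → UnitAddCircle)).prod ((Measure.pi μ).prod ν))
      ((volume : Measure (Fin a → UnitAddCircle)).prod ((Measure.pi μ).prod ν)) := by
  have : Nonempty N := nonempty_of_isProbabilityMeasure ν
  refine (TE_step volume _ _ _ (TE_addgroup volume) ?_ (TE_piN G N ν hG k K μ)).1 g (Cls_sub hg)
  rintro a ⟨r, hr⟩ y hy y'
  have h1 : r + y = y := by rw [← hr y]; exact hy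
  have h2 : r = 0 := by simpa using h1
  rw [hr, h2, zero_add]

theorem Pres_comp (μ : ∀ i, Measure (K i)) [∀ i, IsProbabilityMeasure (μ i)]
    [∀ i, (μ i).IsMulLeftInvariant] [∀ i, (μ i).IsMulRightInvariant] (ν : Measure N)
    [IsProbabilityMeasure ν] (hG : ∀ g : G, MeasurePreserving (fun w : N => g • w) ν ν)
    {φ : Sp a K N → ℝ} {g h : C(Sp a K N, Sp a K N)}
    (hg : g ∈ Pres G ((volume : Measure (Fin a → UnitAddCircle)).prod ((Measure.pi μ).prod ν)) φ)
    (hh : h ∈ Pres G ((volume : Measure (Fin a → UnitAddCircle)).prod ((Measure.pi μ).prod ν)) φ) :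
    g.comp h ∈ Pres G ((volume : Measure (Fin a → UnitAddCircle)).prod
      ((Measure.pi μ).prod ν)) φ := by
  refine ⟨Cls_comp hg.1 hh.1, ?_⟩
  have h1 := (class_mp μ ν hG hh.1).quasiMeasurePreserving.ae hg.2
  filter_upwards [h1, hh.2] with z h2 h3
  show φ (g (h z)) = φ z
  rw [h2, h3]

theorem W_sub (μ : ∀ i, Measure (K i)) [∀ i, IsProbabilityMeasure (μ i)]
    [∀ i, (μ i).IsMulLeftInvariant] [∀ i, (μ i).IsMulRightInvariant] (ν : Measure N)
    [IsProbabilityMeasure ν] (hG : ∀ g : G, MeasurePreserving (fun w : N => g • w) ν ν)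
    {φ : Sp a K N → ℝ} {L : Set C(Sp a K N, Sp a K N)}
    (hL : L ⊆ PresI G ((volume : Measure (Fin a → UnitAddCircle)).prod ((Measure.pi μ).prod ν)) φ) :
    ∀ n, W L n ⊆ PresI G ((volume : Measure (Fin a → UnitAddCircle)).prod
      ((Measure.pi μ).prod ν)) φ
  | 0 => by
    rintro g rfl
    have hid : ContinuousMap.id (Sp a K N) ∈ Pres G ((volume : Measure (Fin a → UnitAddCircle)).prod
      ((Measure.pi μ).prod ν)) φ := ⟨Cls_id, Eventually.of_forall fun z => rfl⟩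
    exact ⟨hid, _, hid, rfl⟩
  | n + 1 => by
    rintro g ⟨⟨g₁, g₂⟩, ⟨h₁, h₂⟩, rfl⟩
    obtain ⟨e₁, g₁', e₁', f₁⟩ := hL h₁
    obtain ⟨e₂, g₂', e₂', f₂⟩ := W_sub μ ν hG hL n h₂
    refine ⟨Pres_comp μ ν hG e₁ e₂, g₂'.comp g₁', Pres_comp μ ν hG e₂' e₁', ?_⟩
    ext1 z
    show g₂' (g₁' (g₁ (g₂ z))) = z
    have h3 : g₁' (g₁ (g₂ z)) = g₂ z := DFunLike.congr_fun f₁ (g₂ z)
    rw [h3]
    exact DFunLike.congr_fun f₂ z

/-- the saturation of a compact subset of a fibre has positive measure -/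
theorem sat_pos (μ : ∀ i, Measure (K i)) [∀ i, IsProbabilityMeasure (μ i)]
    (ν : Measure N)
    [IsProbabilityMeasure ν] (hG : ∀ g : G, MeasurePreserving (fun w : N => g • w) ν ν)
    {Q : Set C(Sp a K N, Sp a K N)} (hQc : IsCompact Q) (hQ : Q ⊆ Cls a K G N)
    (x : Fin a → UnitAddCircle) (y : ∀ i, K i) (w₀ : N)
    (hpos : (volume : Measure (Fin a → UnitAddCircle)).prod (Measure.pi μ)
      ((fun g : C(Sp a K N, Sp a K N) => ((g (x, (y, w₀))).1, (g (x, (y, w₀))).2.1)) '' Q) ≠ 0)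
    {E : Set N} (hE : IsCompact E) (hEν : ν E ≠ 0) :
    MeasurableSet ((fun q : C(Sp a K N, Sp a K N) × N => q.1 (x, (y, q.2))) '' (Q ×ˢ E)) ∧
    ((volume : Measure (Fin a → UnitAddCircle)).prod ((Measure.pi μ).prod ν))
      ((fun q : C(Sp a K N, Sp a K N) × N => q.1 (x, (y, q.2))) '' (Q ×ˢ E)) ≠ 0 := by
  have hcont : Continuous fun q : C(Sp a K N, Sp a K N) × N => q.1 (x, (y, q.2)) := by fun_prop
  have hm : MeasurableSet ((fun q : C(Sp a K N, Sp a K N) × N => q.1 (x, (y, q.2))) '' (Q ×ˢ E)) :=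
    ((hQc.prod hE).image hcont).measurableSet
  refine ⟨hm, fun h0 => hpos ?_⟩
  have hcont1 : Continuous fun g : C(Sp a K N, Sp a K N) =>
      ((g (x, (y, w₀))).1, (g (x, (y, w₀))).2.1) := by fun_prop
  have hm1 : MeasurableSet ((fun g : C(Sp a K N, Sp a K N) =>
      ((g (x, (y, w₀))).1, (g (x, (y, w₀))).2.1)) '' Q) := (hQc.image hcont1).measurableSet
  rw [Measure.measure_prod_null hm] at h0
  rw [Measure.measure_prod_null hm1]
  filter_upwards [h0] with x' hx'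
  rw [Pi.zero_apply] at hx'
  rw [Measure.measure_prod_null (measurable_prodMk_left hm)] at hx'
  refine measure_eq_zero_iff_ae_notMem.2 ?_
  filter_upwards [hx'] with y' hy' hmem
  obtain ⟨g, hg, hgxy⟩ := hmem
  obtain ⟨γ, x'', y'', hγ⟩ := Cls_top (hQ hg) x y
  have hg0 := hγ w₀
  simp only [hg0, Prod.mk.injEq] at hgxy
  obtain ⟨rfl, rfl⟩ := hgxy
  apply hEν
  have h1 := (hG γ⁻¹).measure_preimage hE.measurableSet.nullMeasurableSet
  rw [← h1]
  refine measure_mono_null ?_ hy'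
  intro w hw
  show (x'', (y'', w)) ∈ (fun q : C(Sp a K N, Sp a K N) × N => q.1 (x, (y, q.2))) '' (Q ×ˢ E)
  refine ⟨(g, γ⁻¹ • w), ⟨hg, hw⟩, ?_⟩
  show g (x, (y, γ⁻¹ • w)) = _
  rw [hγ, smul_inv_smul]

/-- the map of the lower space -/
def aC (w₀ : N) (g : C(Sp a K N, Sp a K N)) :
    C((Fin a → UnitAddCircle) × (∀ i, K i), (Fin a → UnitAddCircle) × (∀ i, K i)) :=
  ⟨fun y => ((g (y.1, (y.2, w₀))).1, (g (y.1, (y.2, w₀))).2.1), by fun_prop⟩

omit [IsTopologicalGroup G] [LocallyCompactSpace G] [SecondCountableTopology G] [T2Space G]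
  [ContinuousSMul G N] [∀ i, MeasurableSpace (K i)]
  [∀ i, BorelSpace (K i)] [MeasurableSpace N] [BorelSpace N] in
theorem aC_sub (w₀ : N) {g : C(Sp a K N, Sp a K N)} (hg : g ∈ Cls a K G N) :
    aC w₀ g ∈ Sk {r : C(Fin a → UnitAddCircle, Fin a → UnitAddCircle) | ∃ s, ∀ y, r y = s + y}
      (Tri K) := by
  refine ⟨?_, fun x => ⟨sec x (aC w₀ g), ?_, fun w => rfl⟩⟩
  · refine ⟨⟨fun y => (g (0, (fun _ => 1, w₀))).1 + y, by fun_prop⟩, ⟨_, fun y => rfl⟩,
      fun y w => ?_⟩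
    have h1 := hg.1 (y, (w, w₀)) (0, (fun _ => 1, w₀))
    show (g (y, (w, w₀))).1 = (g (0, (fun _ => 1, w₀))).1 + y
    have h2 : (g (y, (w, w₀))).1 - (g (0, (fun _ => 1, w₀))).1 = y := by simpa using h1
    exact sub_eq_iff_eq_add'.1 h2
  · intro i w w' hw
    exact hg.2.1 i (x, (w, w₀)) (x, (w', w₀)) ⟨rfl, fun j hj => hw j hj⟩

/-- the main step -/
theorem ess_const (μ : ∀ i, Measure (K i)) [∀ i, IsProbabilityMeasure (μ i)]
    [∀ i, (μ i).IsMulLeftInvariant] [∀ i, (μ i).IsMulRightInvariant] (ν : Measure N)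
    [IsProbabilityMeasure ν] (hG : ∀ g : G, MeasurePreserving (fun w : N => g • w) ν ν)
    {φ : Sp a K N → ℝ} (hφm : Measurable φ) {C : ℝ} (hφb : ∀ z, |φ z| ≤ C)
    (L : ℕ → Set C(Sp a K N, Sp a K N)) (hLc : ∀ r, IsCompact (L r))
    (hL : ∀ r, L r ⊆ PresI G ((volume : Measure (Fin a → UnitAddCircle)).prod
      ((Measure.pi μ).prod ν)) φ) (w₀ : N)
    (hlow : ∀ y y' : (Fin a → UnitAddCircle) × (∀ i, K i), ∃ r n, ∃ g ∈ W (L r) n, aC w₀ g y = y')
    (hess : ∀ A B : Set (Sp a K N), MeasurableSet A → MeasurableSet B →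
      ((volume : Measure (Fin a → UnitAddCircle)).prod ((Measure.pi μ).prod ν)) A ≠ 0 →
      ((volume : Measure (Fin a → UnitAddCircle)).prod ((Measure.pi μ).prod ν)) B ≠ 0 →
      ∃ p ∈ A, ∃ q ∈ B, ∃ r n, ∃ g ∈ W (L r) n, g p = q) :
    ∃ c : ℝ, ∀ᵐ z ∂((volume : Measure (Fin a → UnitAddCircle)).prod ((Measure.pi μ).prod ν)),
      φ z = c := by
  set m := (volume : Measure (Fin a → UnitAddCircle)).prod ((Measure.pi μ).prod ν) with hm
  set mY := (volume : Measure (Fin a → UnitAddCircle)).prod (Measure.pi μ) with hmY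
  have hφi : Integrable φ m :=
    Integrable.of_bound hφm.aestronglyMeasurable C (Eventually.of_forall hφb)
  have hfm : Measurable fun p : ((Fin a → UnitAddCircle) × (∀ i, K i)) × N =>
      φ (p.1.1, (p.1.2, p.2)) := hφm.comp (by fun_prop)
  set c : (Fin a → UnitAddCircle) × (∀ i, K i) → ℝ := fun y => ∫ w, φ (y.1, (y.2, w)) ∂ν with hc
  have hcm : Measurable c := (hfm.stronglyMeasurable.integral_prod_right').measurable
  have hslice : ∀ y : (Fin a → UnitAddCircle) × (∀ i, K i), Measurable fun w => φ (y.1, (y.2, w)) :=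
    fun y => hfm.comp measurable_prodMk_left
  have hslicei : ∀ y : (Fin a → UnitAddCircle) × (∀ i, K i),
      Integrable (fun w => φ (y.1, (y.2, w))) ν := fun y =>
    Integrable.of_bound (hslice y).aestronglyMeasurable C (Eventually.of_forall fun w => hφb _)
  have hms : MeasurableSet {p : ((Fin a → UnitAddCircle) × (∀ i, K i)) × N |
      φ (p.1.1, (p.1.2, p.2)) = c p.1} := measurableSet_eq_fun hfm (hcm.comp measurable_fst)
  set D : Set ((Fin a → UnitAddCircle) × (∀ i, K i)) :=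
    {y | ν {w | ¬ φ (y.1, (y.2, w)) = c y} ≠ 0} with hD
  have hDm : MeasurableSet D := by
    have h1 := measurable_measure_prodMk_left (ν := ν) hms.compl
    exact (h1 (measurableSet_singleton 0)).compl
  have hD0 : mY D = 0 := by
    by_contra hD0
    obtain ⟨p, hpD, hp⟩ := LP_step (volume : Measure (Fin a → UnitAddCircle)) (Measure.pi μ) ν
      {a : C(Fin a → UnitAddCircle, Fin a → UnitAddCircle) | ∃ r, ∀ y, a y = r + y} (TriN K G N) (by
        rintro a ⟨r, hr⟩ y hy y'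
        have h1 : r + y = y := by rw [← hr y]; exact hy
        have h2 : r = 0 := by simpa using h1
        rw [hr, h2, zero_add]) (TE_piN G N ν hG k K μ).1 (LP_pi G N ν hG k K μ)
      φ hφm hφi (Pres G m φ) (fun g hg => by
        have : Nonempty N := ⟨w₀⟩
        exact Cls_sub hg.1) (fun g hg => hg.2) D hDm hD0
    obtain ⟨x, y⟩ := p
    have hnc : ¬ ∃ c' : ℝ, ∀ᵐ w ∂ν, φ (x, (y, w)) = c' := by
      rintro ⟨c', hc'⟩
      apply hpD
      have h1 : c (x, y) = c' := by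
        show ∫ w, φ (x, (y, w)) ∂ν = c'
        rw [integral_congr_ae hc']; simp
      refine measure_eq_zero_iff_ae_notMem.2 ?_
      filter_upwards [hc'] with w hw h2
      exact h2 (by show φ (x, (y, w)) = c (x, y); rw [h1, hw])
    obtain ⟨E, hEm, hE0, hE1, hEinv⟩ := exact_set ν hG (fun w => φ (x, (y, w))) (hslice (x, y))
      (hslicei (x, y)) hnc
    obtain ⟨E₁, hE₁, hE₁c, hE₁ν⟩ := hEm.exists_lt_isCompact (μ := ν) (pos_iff_ne_zero.2 hE0)
    obtain ⟨E₂, hE₂, hE₂c, hE₂ν⟩ := hEm.compl.exists_lt_isCompact (μ := ν) (pos_iff_ne_zero.2 hE1)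
    obtain ⟨r, n, hrn⟩ : ∃ r n, mY ((fun g : C(Sp a K N, Sp a K N) =>
        ((g (x, (y, w₀))).1, (g (x, (y, w₀))).2.1)) '' W (L r) n) ≠ 0 := by
      by_contra hcon
      push Not at hcon
      have h1 : mY (⋃ r, ⋃ n, (fun g : C(Sp a K N, Sp a K N) =>
        ((g (x, (y, w₀))).1, (g (x, (y, w₀))).2.1)) '' W (L r) n) = 0 :=
        measure_iUnion_null fun r => measure_iUnion_null fun n => hcon r n
      have h2 : (⋃ r, ⋃ n, (fun g : C(Sp a K N, Sp a K N) =>
        ((g (x, (y, w₀))).1, (g (x, (y, w₀))).2.1)) '' W (L r) n) = univ := by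
        refine eq_univ_of_forall fun y' => ?_
        obtain ⟨r, n, g, hg, hgy⟩ := hlow (x, y) y'
        exact mem_iUnion.2 ⟨r, mem_iUnion.2 ⟨n, g, hg, hgy⟩⟩
      rw [h2, measure_univ] at h1
      exact one_ne_zero h1
    have hWsub := W_sub μ ν hG (hL r) n
    obtain ⟨hA₁m, hA₁⟩ := sat_pos μ ν hG (W_compact (hLc r) n) (fun g hg => (hWsub hg).1.1) x y w₀
      hrn hE₁c hE₁ν.ne'
    obtain ⟨hA₂m, hA₂⟩ := sat_pos μ ν hG (W_compact (hLc r) n) (fun g hg => (hWsub hg).1.1) x y w₀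
      hrn hE₂c hE₂ν.ne'
    obtain ⟨_, ⟨⟨g₁, w₁⟩, ⟨hg₁, hw₁⟩, rfl⟩, _, ⟨⟨g₂, w₂⟩, ⟨hg₂, hw₂⟩, rfl⟩, r', n', h, hh, hhp⟩ :=
      hess _ _ hA₁m hA₂m hA₁ hA₂
    obtain ⟨hg₂p, g₂', hg₂', hinv⟩ := hWsub hg₂
    have hℓ : (g₂'.comp (h.comp g₁)) ∈ Pres G m φ :=
      Pres_comp μ ν hG hg₂' (Pres_comp μ ν hG (W_sub μ ν hG (hL r') n' hh).1 (hWsub hg₁).1)
    have hval : (g₂'.comp (h.comp g₁)) (x, (y, w₁)) = (x, (y, w₂)) := by
      show g₂' (h (g₁ (x, (y, w₁)))) = _
      have h1 : h (g₁ (x, (y, w₁))) = g₂ (x, (y, w₂)) := hhp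
      rw [h1]
      exact DFunLike.congr_fun hinv (x, (y, w₂))
    obtain ⟨γ, x', y', hγ⟩ := Cls_top hℓ.1 x y
    have h1 := hγ w₁
    rw [hval] at h1
    simp only [Prod.mk.injEq] at h1
    obtain ⟨rfl, rfl, h2⟩ := h1
    have h3 := hp _ hℓ (fun w => by
      constructor
      · show ((g₂'.comp (h.comp g₁)) (x, (y, w))).1 = x
        rw [hγ]
      · show ((g₂'.comp (h.comp g₁)) (x, (y, w))).2.1 = y
        rw [hγ])
    have h4 : ∀ᵐ w ∂ν, φ (x, (y, γ • w)) = φ (x, (y, w)) := by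
      filter_upwards [h3] with w hw
      have h5 : ((g₂'.comp (h.comp g₁)) (x, (y, w))).2.2 = γ • w := by rw [hγ]
      rw [← hw, ← h5]
    have h5 := hEinv γ h4 w₁
    rw [← h2] at h5
    exact hE₂ hw₂ (h5.2 (hE₁ hw₁))
  -- `φ` is a function of the lower coordinates
  have hz1 : ∀ᵐ p ∂(mY.prod ν), φ (p.1.1, (p.1.2, p.2)) = c p.1 := by
    have h1 : ∀ᵐ y ∂mY, y ∉ D := measure_eq_zero_iff_ae_notMem.1 hD0
    refine (Measure.ae_prod_mem_iff_ae_ae_mem hms).2 ?_
    filter_upwards [h1] with y hy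
    have h2 : ν {w | ¬ φ (y.1, (y.2, w)) = c y} = 0 := not_not.1 hy
    have h3 := measure_eq_zero_iff_ae_notMem.1 h2
    filter_upwards [h3] with w hw
    exact not_not.1 hw
  have hz : ∀ᵐ z ∂m, φ z = c (z.1, z.2.1) := by
    have h1 : MeasurePreserving (MeasurableEquiv.prodAssoc
        (α := Fin a → UnitAddCircle) (β := ∀ i, K i) (γ := N)).symm m (mY.prod ν) :=
      (measurePreserving_prodAssoc (volume : Measure (Fin a → UnitAddCircle)) (Measure.pi μ) ν).symm _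
    exact h1.quasiMeasurePreserving.ae hz1
  have hpr : MeasurePreserving (fun z : Sp a K N => (z.1, z.2.1)) m mY :=
    (MeasurePreserving.id (volume : Measure (Fin a → UnitAddCircle))).prod measurePreserving_fst
  have hci : Integrable c mY := by
    refine Integrable.of_bound hcm.aestronglyMeasurable C (Eventually.of_forall fun y => ?_)
    have h1 := norm_integral_le_of_norm_le_const (μ := ν) (f := fun w => φ (y.1, (y.2, w)))
      (Eventually.of_forall fun w => hφb (y.1, (y.2, w)))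
    simpa using h1
  obtain ⟨c₀, hc₀⟩ := (TE_tower (volume : Measure (Fin a → UnitAddCircle)) K μ).2
    (aC w₀ '' Pres G m φ) (by rintro _ ⟨g, hg, rfl⟩; exact aC_sub w₀ hg.1) (by
      intro y y'
      obtain ⟨r, n, g, hg, hgy⟩ := hlow y y'
      exact ⟨aC w₀ g, ⟨g, (W_sub μ ν hG (hL r) n hg).1, rfl⟩, hgy⟩) c hcm hci (by
      rintro _ ⟨g, hg, rfl⟩
      have h1 := (class_mp μ ν hG hg.1).quasiMeasurePreserving.ae hz
      have h2 : ∀ᵐ z ∂m, c (aC w₀ g (z.1, z.2.1)) = c (z.1, z.2.1) := by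
        filter_upwards [h1, hg.2, hz] with z h3 h4 h5
        rw [← h5, ← h4, h3]
        congr 1
        have h6 : Agr k (z.1, (z.2.1, w₀)) z := ⟨rfl, fun j _ => rfl⟩
        have h7 := (Cls_agr hg.1 h6).full
        exact Prod.ext h7.1 h7.2
      have h3 : MeasurableSet {y | c (aC w₀ g y) = c y} :=
        measurableSet_eq_fun (hcm.comp (aC w₀ g).continuous.measurable) hcm
      have h4 := (ae_map_iff hpr.measurable.aemeasurable h3).2 h2
      rw [hpr.map_eq] at h4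
      exact h4)
  refine ⟨c₀, ?_⟩
  have h1 := hpr.quasiMeasurePreserving.ae hc₀
  filter_upwards [hz, h1] with z h2 h3
  rw [h2, h3]

/-- The theorem on towers. -/
theorem tower {A B : Matrix (Fin a) (Fin a) ℤ} {Es Eu : Submodule ℝ (Fin a → ℝ)} {D lam : ℝ}
    {b : N ≃ₜ N} {kap : ℝ} {f : Sp a K N ≃ₜ Sp a K N} (h : HypSplit A B Es Eu D lam)
    (hcl : IsClosed (Act G N)) (hnb : Normalises G b) (hf : HasForm G A b f)
    (hfg : Growth (Prod.fst : Sp a K N → Fin a → UnitAddCircle) kap f)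
    (hk0 : 0 ≤ kap) (hkl : kap < lam) {ρ : ℝ} (hρ0 : 0 ≤ ρ) (hρ1 : ρ < 1) (hρ : ρ * kap < 1)
    (μ : ∀ i, Measure (K i)) [∀ i, IsProbabilityMeasure (μ i)]
    [∀ i, (μ i).IsMulLeftInvariant] [∀ i, (μ i).IsMulRightInvariant] (ν : Measure N)
    [IsProbabilityMeasure ν] (hG : ∀ g : G, MeasurePreserving (fun w : N => g • w) ν ν)
    (hb : MeasurePreserving b ν ν)
    (hlow : 0 < k → AccessibleModulo (lower : Sp a K N → _) f ρ)
    (hess : EssAccessible f ρ (prodMeasure a μ ν)) :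
    ErgodicMixing f (prodMeasure a μ ν) := by
  rw [prodMeasure] at hess ⊢
  set m := (volume : Measure (Fin a → UnitAddCircle)).prod ((Measure.pi μ).prod ν) with hm
  obtain ⟨w₀⟩ : Nonempty N := nonempty_of_isProbabilityMeasure ν
  have hmp : MeasurePreserving f m m := hf.cls.mp h.mulAB μ ν hG hb
  obtain ⟨C₁, hlip⟩ := hfg.lip
  obtain ⟨C₂, hgr⟩ := hfg.growth
  obtain ⟨Θ, Λ, hΛ, hcls, hcom, hlim, hleaf, hadd, hzero, hcont, hfst⟩ :=
    side h hnb hf.cls hcl ⟨C₁, fun z z' => (hlip z z').2⟩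
    ⟨C₂, fun n z z' hz => (hgr n z z' hz).2⟩ hk0 hkl hρ0 hρ1 hρ
  obtain ⟨Θ', Λ', hΛ', hcls', hcom', hlim', hleaf', hadd', hzero', hcont', hfst'⟩ :=
    side (f := f.symm) h.swap hnb.symm
    (hf.cls.symm h.mulBA hnb) hcl ⟨C₁, fun z z' => (hlip z z').1⟩
    ⟨C₂, fun n z z' hz => (hgr n z z' hz).1⟩ hk0 hkl hρ0 hρ1 hρ
  have hmix := mix_meas f hmp Θ Λ hΛ Θ' Λ' (fun v => class_mp μ ν hG (hcls v))
    (fun v => class_mp μ ν hG (hcls' v)) hcom hcom' hlim hlim' (by
      intro φ hφm hφi hs hu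
      -- bounded function
      set ψ : Sp a K N → ℝ := fun z => Real.arctan (φ z) with hψ
      have hψm : Measurable ψ := Real.continuous_arctan.measurable.comp hφm
      have hψb : ∀ z, |ψ z| ≤ Real.pi / 2 := fun z =>
        abs_le.2 ⟨(Real.neg_pi_div_two_lt_arctan _).le, (Real.arctan_lt_pi_div_two _).le⟩
      set L : ℕ → Set C(Sp a K N, Sp a K N) := fun r =>
        Θ '' Metric.closedBall 0 r ∪ Θ' '' Metric.closedBall 0 r with hLdef
      have hLc : ∀ r, IsCompact (L r) := fun r =>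
        ((isCompact_closedBall _ _).image hcont).union ((isCompact_closedBall _ _).image hcont')
      have hLm : Monotone L := fun r r' hrr =>
        union_subset_union (image_mono (Metric.closedBall_subset_closedBall (by exact_mod_cast hrr)))
          (image_mono (Metric.closedBall_subset_closedBall (by exact_mod_cast hrr)))
      have hLΘ : ∀ v, ∃ r, Θ v ∈ L r := fun v => by
        obtain ⟨r, hr⟩ := exists_nat_ge ‖v‖
        exact ⟨r, Or.inl ⟨v, by simpa using hr, rfl⟩⟩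
      have hLΘ' : ∀ v, ∃ r, Θ' v ∈ L r := fun v => by
        obtain ⟨r, hr⟩ := exists_nat_ge ‖v‖
        exact ⟨r, Or.inr ⟨v, by simpa using hr, rfl⟩⟩
      have hP : ∀ v, Θ v ∈ Pres G m ψ := fun v => ⟨hcls v, by
        filter_upwards [hs v] with z hz
        show Real.arctan (φ (Θ v z)) = Real.arctan (φ z)
        rw [hz]⟩
      have hP' : ∀ v, Θ' v ∈ Pres G m ψ := fun v => ⟨hcls' v, by
        filter_upwards [hu v] with z hz
        show Real.arctan (φ (Θ' v z)) = Real.arctan (φ z)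
        rw [hz]⟩
      have hL : ∀ r, L r ⊆ PresI G m ψ := by
        rintro r g (⟨v, -, rfl⟩ | ⟨v, -, rfl⟩)
        · exact ⟨hP v, Θ (-v), hP _, by rw [hadd, neg_add_cancel, hzero]⟩
        · exact ⟨hP' v, Θ' (-v), hP' _, by rw [hadd', neg_add_cancel, hzero']⟩
      have hR : ∀ p q, (OnLeaf f ρ p q ∨ OnLeaf f.symm ρ p q) → ∃ r, ∃ g ∈ L r, g p = q := by
        rintro p q (hpq | hpq)
        · obtain ⟨v, rfl⟩ := hleaf _ _ hpq
          obtain ⟨r, hr⟩ := hLΘ v
          exact ⟨r, _, hr, rfl⟩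
        · obtain ⟨v, rfl⟩ := hleaf' _ _ hpq
          obtain ⟨r, hr⟩ := hLΘ' v
          exact ⟨r, _, hr, rfl⟩
      have hlow' : ∀ y y' : (Fin a → UnitAddCircle) × (∀ i, K i),
          ∃ r n, ∃ g ∈ W (L r) n, aC w₀ g y = y' := by
        rintro ⟨x, y⟩ ⟨x', y'⟩
        rcases Nat.eq_zero_or_pos k with hk | hk
        · -- the base
          obtain ⟨r₀, hr₀, -⟩ := cov_lift (x' - x)
          obtain ⟨v, hv, u, hu', hvu⟩ := Submodule.mem_sup.1
            (show r₀ ∈ Es ⊔ Eu by rw [h.sup_eq]; exact Submodule.mem_top)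
          obtain ⟨r₁, h₁⟩ := hLΘ ⟨v, hv⟩
          obtain ⟨r₂, h₂⟩ := hLΘ' ⟨u, hu'⟩
          refine ⟨max r₁ r₂, 2, (Θ' ⟨u, hu'⟩).comp ((Θ ⟨v, hv⟩).comp (ContinuousMap.id _)),
            ⟨(Θ' ⟨u, hu'⟩, (Θ ⟨v, hv⟩).comp (ContinuousMap.id _)), ⟨hLm (le_max_right _ _) h₂,
              ⟨(Θ ⟨v, hv⟩, ContinuousMap.id _), ⟨hLm (le_max_left _ _) h₁, rfl⟩, rfl⟩⟩, rfl⟩, ?_⟩
          refine Prod.ext ?_ (funext fun j => ?_)
          · show (Θ' ⟨u, hu'⟩ (Θ ⟨v, hv⟩ (x, (y, w₀)))).1 = x'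
            rw [hfst', hfst]
            have h3 : cov v + cov u = x' - x := by
              rw [← hr₀, ← hvu]
              exact funext fun i => (AddCircle.coe_add (1 : ℝ) (v i) (u i)).symm
            rw [add_assoc, h3]; abel
          · exact absurd j.2 (by omega)
        · obtain ⟨⟨x₁, y₁, w⟩, ⟨x₂, y₂, w'⟩, h₁, h₂, hj⟩ := hlow hk (x, y) (x', y')
          simp only [lower, Prod.mk.injEq] at h₁ h₂
          obtain ⟨rfl, rfl⟩ := h₁
          obtain ⟨rfl, rfl⟩ := h₂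
          obtain ⟨r, n, g, hg, hgp⟩ := path_W L hLm _ hR hj
          refine ⟨r, n, g, hg, ?_⟩
          have h6 : Agr k (x₁, (y₁, w₀)) (x₁, (y₁, w)) := ⟨rfl, fun j _ => rfl⟩
          have h7 := (Cls_agr (W_sub μ ν hG (hL r) n hg).1.1 h6).full
          rw [hgp] at h7
          exact Prod.ext h7.1 h7.2
      obtain ⟨c, hc⟩ := ess_const μ ν hG hψm hψb L hLc hL w₀ hlow' (by
        intro S T hS hT hS0 hT0
        obtain ⟨p, hp, q, hq, hpq⟩ := hess S T hS hT hS0 hT0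
        obtain ⟨r, n, g, hg, hgp⟩ := path_W L hLm _ hR hpq
        exact ⟨p, hp, q, hq, r, n, g, hg, hgp⟩)
      refine ⟨Real.tan c, ?_⟩
      filter_upwards [hc] with z hz
      have h8 : Real.arctan (φ z) = c := hz
      rw [← h8, Real.tan_arctan])
  refine ⟨⟨hmp, ⟨fun s hs hfs => ?_⟩⟩, hmix⟩
  have hit : ∀ n : ℕ, f^[n] ⁻¹' s = s := by
    intro n
    induction n with
    | zero => rfl
    | succ n ih => rw [iterate_succ, preimage_comp, ih, hfs]
  have h1 := hmix s s hs hs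
  simp only [hit, inter_self] at h1
  have h2 : m s = m s * m s := tendsto_nhds_unique tendsto_const_nhds h1
  have h3 : m s = 0 ∨ m s = 1 := by
    by_cases h0 : m s = 0
    · exact Or.inl h0
    · right
      have h4 : m s * 1 = m s * m s := by rw [mul_one]; exact h2
      exact ((ENNReal.mul_right_inj h0 (measure_ne_top m s)).1 h4).symm
  rw [Filter.eventuallyConst_set']
  rcases h3 with h3 | h3
  · left; exact ae_eq_empty.2 h3
  · right
    exact (ae_eq_univ.2 ((prob_compl_eq_zero_iff hs).2 h3))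

end

end Pool.PSTow
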