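import Pool.Agent.Work.MP_adbfe6_an.Tow.Pi

/-!
# MP_adbfe6_an, towers: holonomies of skew products over a hyperbolic base
-/

open MeasureTheory Set Filter Topology Function

namespace Pool.PSTow

section Hol

variable {X V N : Type} [AddCommGroup X] [MetricSpace X] [CompactSpace X]
  [IsTopologicalAddGroup X] [NormedAddCommGroup V] [MetricSpace N] [CompactSpace N]

/-- translation of the base coordinate -/
def tr (π : V → X) (u : V) : C(X × N, X × N) := ⟨fun z => (z.1 + π u, z.2), by fun_prop⟩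

/-- contraction data -/
structure Con (f : X × N ≃ₜ X × N) (A : X → X) (L : V → V) (π : V → X) (S : Set V)
    (D lam kap : ℝ) : Prop where
  cov : ∀ x u, A (x + π u) = A x + π (L u)
  fst : ∀ z, (f z).1 = A z.1
  inj : Injective A
  pid : ∀ x u, dist (x + π u) x ≤ ‖u‖
  inv : ∀ v ∈ S, L v ∈ S
  con : ∀ v ∈ S, ∀ n : ℕ, ‖L^[n] v‖ ≤ D * (1 / lam) ^ n * ‖v‖
  lip : ∀ z z', dist (f.symm z) (f.symm z') ≤ D * dist z z'
  bdd : ∀ u, ‖L u‖ ≤ D * ‖u‖
  ver : ∀ (n : ℕ) z z', z.1 = z'.1 →
    dist (f.symm^[n] z) (f.symm^[n] z') ≤ D * kap ^ n * dist z z'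
  D0 : 0 ≤ D
  kap0 : 0 ≤ kap
  lam1 : 1 < lam
  dom : kap < lam

/-- the approximations of the holonomies -/
def gs (f : X × N ≃ₜ X × N) (L : V → V) (π : V → X) (n : ℕ) (v : V) : C(X × N, X × N) :=
  ⟨fun z => f.symm^[n] (tr π (L^[n] v) (f^[n] z)),
    (f.symm.continuous.iterate n).comp ((tr π (L^[n] v)).continuous.comp (f.continuous.iterate n))⟩

theorem gs_succ (f : X × N ≃ₜ X × N) (L : V → V) (π : V → X) (n : ℕ) (v : V) :
    gs f L π (n + 1) v = cnj f.symm (gs f L π n (L v)) := by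
  ext1 z
  show f.symm^[n + 1] (tr π (L^[n + 1] v) (f^[n + 1] z)) =
    f.symm (f.symm^[n] (tr π (L^[n] (L v)) (f^[n] (f z))))
  rw [iterate_succ_apply', iterate_succ_apply, iterate_succ_apply]

theorem gs_mem (f : X × N ≃ₜ X × N) (L : V → V) (π : V → X) (P : Set C(X × N, X × N))
    (htr : ∀ u, tr π u ∈ P) (hc : ∀ g ∈ P, cnj f.symm g ∈ P) : ∀ n v, gs f L π n v ∈ P := by
  intro n
  induction n with
  | zero => intro v; exact htr v
  | succ n ih => intro v; rw [gs_succ]; exact hc _ (ih _)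

namespace Con

variable {f : X × N ≃ₜ X × N} {A : X → X} {L : V → V} {π : V → X} {S : Set V} {D lam kap : ℝ}

theorem itfst (h : Con f A L π S D lam kap) (n : ℕ) (z : X × N) : (f^[n] z).1 = A^[n] z.1 := by
  induction n generalizing z with
  | zero => rfl
  | succ n ih => rw [iterate_succ_apply, iterate_succ_apply, ih, h.fst]

theorem itcov (h : Con f A L π S D lam kap) (n : ℕ) (x : X) (u : V) :
    A^[n] (x + π u) = A^[n] x + π (L^[n] u) := by
  induction n generalizing x u with
  | zero => rfl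
  | succ n ih => rw [iterate_succ_apply, iterate_succ_apply, iterate_succ_apply, h.cov, ih]

theorem itinv (h : Con f A L π S D lam kap) (n : ℕ) {v : V} (hv : v ∈ S) : L^[n] v ∈ S := by
  induction n generalizing v with
  | zero => exact hv
  | succ n ih => rw [iterate_succ_apply]; exact ih (h.inv v hv)

theorem gs_fst (h : Con f A L π S D lam kap) (n : ℕ) (v : V) (z : X × N) :
    (gs f L π n v z).1 = z.1 + π v := by
  apply h.inj.iterate n
  rw [← h.itfst, h.itcov, ← h.itfst]
  show (f^[n] (f.symm^[n] (tr π (L^[n] v) (f^[n] z)))).1 = _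
  rw [(Function.LeftInverse.iterate f.apply_symm_apply n) _]
  rfl

theorem tr_dist (h : Con f A L π S D lam kap) (u : V) (w : X × N) : dist (tr π u w) w ≤ ‖u‖ := by
  show dist ((w.1 + π u, w.2) : X × N) w ≤ ‖u‖
  rw [Prod.dist_eq]
  simp only [dist_self]
  exact max_le (h.pid _ _) (norm_nonneg _)

theorem gs_dist (h : Con f A L π S D lam kap) (n : ℕ) {v : V} (hv : v ∈ S) :
    dist (gs f L π n v) (gs f L π (n + 1) v) ≤ (D * (D * D + 1) * D * ‖v‖) * (kap / lam) ^ n := by
  have hD := h.D0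
  have hk := h.kap0
  have hl : 0 < lam := lt_trans one_pos h.lam1
  refine (ContinuousMap.dist_le (by positivity)).2 fun z => ?_
  set w := f^[n] z with hw
  set u := L^[n] v with hu
  have e1 : gs f L π n v z = f.symm^[n] (tr π u w) := rfl
  have e2 : gs f L π (n + 1) v z = f.symm^[n] (f.symm (tr π (L u) (f w))) := by
    show f.symm^[n + 1] (tr π (L^[n + 1] v) (f^[n + 1] z)) = _
    rw [iterate_succ_apply, iterate_succ_apply', iterate_succ_apply']
  have e3 : (tr π u w).1 = (f.symm (tr π (L u) (f w))).1 := by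
    apply h.inj
    rw [← h.fst, ← h.fst, f.apply_symm_apply, h.fst]
    show A (w.1 + π u) = (f w).1 + π (L u)
    rw [h.cov, h.fst]
  have e4 : dist (tr π u w) (f.symm (tr π (L u) (f w))) ≤ (D * D + 1) * ‖u‖ := by
    have h1 : dist (f.symm (tr π (L u) (f w))) w ≤ D * ‖L u‖ := by
      calc dist (f.symm (tr π (L u) (f w))) w
          = dist (f.symm (tr π (L u) (f w))) (f.symm (f w)) := by rw [f.symm_apply_apply]
        _ ≤ D * dist (tr π (L u) (f w)) (f w) := h.lip _ _
        _ ≤ D * ‖L u‖ := mul_le_mul_of_nonneg_left (h.tr_dist _ _) hD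
    have h2 : D * ‖L u‖ ≤ D * (D * ‖u‖) := mul_le_mul_of_nonneg_left (h.bdd u) hD
    have h3 := h.tr_dist u w
    have h4 := dist_triangle_right (tr π u w) (f.symm (tr π (L u) (f w))) w
    linarith
  have e5 : ‖u‖ ≤ D * (1 / lam) ^ n * ‖v‖ := h.con v hv n
  rw [e1, e2]
  calc dist (f.symm^[n] (tr π u w)) (f.symm^[n] (f.symm (tr π (L u) (f w))))
      ≤ D * kap ^ n * dist (tr π u w) (f.symm (tr π (L u) (f w))) := h.ver n _ _ e3
    _ ≤ D * kap ^ n * ((D * D + 1) * (D * (1 / lam) ^ n * ‖v‖)) := by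
        refine mul_le_mul_of_nonneg_left (e4.trans ?_) (by positivity)
        exact mul_le_mul_of_nonneg_left e5 (by positivity)
    _ = (D * (D * D + 1) * D * ‖v‖) * (kap / lam) ^ n := by
        rw [div_pow, div_pow, one_pow]; ring

/-- existence of the holonomies -/
theorem exists_theta (h : Con f A L π S D lam kap) : ∃ C : ℝ, 0 ≤ C ∧
    ∃ Θ : V → C(X × N, X × N), ∀ v ∈ S, Tendsto (fun n => gs f L π n v) atTop (𝓝 (Θ v)) ∧
      dist (Θ v) (ContinuousMap.id _) ≤ C * ‖v‖ := by
  have hD := h.D0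
  have hk := h.kap0
  have hl : 0 < lam := lt_trans one_pos h.lam1
  have hr : kap / lam < 1 := (div_lt_one hl).2 h.dom
  have h1r : 0 < 1 - kap / lam := by linarith
  refine ⟨D * (D * D + 1) * D / (1 - kap / lam) + 1, by positivity, ?_⟩
  have hex : ∀ v : V, ∃ g : C(X × N, X × N), v ∈ S → Tendsto (fun n => gs f L π n v) atTop (𝓝 g) := by
    intro v
    by_cases hv : v ∈ S
    · obtain ⟨g, hg⟩ := cauchySeq_tendsto_of_complete
        (cauchySeq_of_le_geometric (kap / lam) _ hr fun n => h.gs_dist n hv)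
      exact ⟨g, fun _ => hg⟩
    · exact ⟨ContinuousMap.id _, fun hv' => absurd hv' hv⟩
  choose Θ hΘ using hex
  refine ⟨Θ, fun v hv => ⟨hΘ v hv, ?_⟩⟩
  have h1 := dist_le_of_le_geometric_of_tendsto₀ (kap / lam) _ hr (fun n => h.gs_dist n hv) (hΘ v hv)
  have h2 : dist (gs f L π 0 v) (ContinuousMap.id _) ≤ ‖v‖ :=
    (ContinuousMap.dist_le (norm_nonneg _)).2 fun z => h.tr_dist v z
  calc dist (Θ v) (ContinuousMap.id _)
      ≤ dist (gs f L π 0 v) (Θ v) + dist (gs f L π 0 v) (ContinuousMap.id _) :=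
        dist_triangle_left _ _ _
    _ ≤ D * (D * D + 1) * D * ‖v‖ / (1 - kap / lam) + ‖v‖ := add_le_add h1 h2
    _ = (D * (D * D + 1) * D / (1 - kap / lam) + 1) * ‖v‖ := by ring

theorem theta_fst (h : Con f A L π S D lam kap) {v : V} {g : C(X × N, X × N)}
    (hg : Tendsto (fun n => gs f L π n v) atTop (𝓝 g)) (z : X × N) : (g z).1 = z.1 + π v := by
  have h1 : Tendsto (fun n => (gs f L π n v z).1) atTop (𝓝 (g z).1) :=
    (continuous_fst.tendsto _).comp (((continuous_eval_const (F := C(X × N, X × N)) z).tendsto g).comp hg)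
  simp only [h.gs_fst] at h1
  exact tendsto_nhds_unique h1 tendsto_const_nhds |>.symm ▸ rfl

theorem theta_comm {v : V} {g g' : C(X × N, X × N)}
    (hg : Tendsto (fun n => gs f L π n v) atTop (𝓝 g))
    (hg' : Tendsto (fun n => gs f L π n (L v)) atTop (𝓝 g')) (z : X × N) : f (g z) = g' (f z) := by
  have h1 : Tendsto (fun n => f (gs f L π (n + 1) v z)) atTop (𝓝 (f (g z))) :=
    (f.continuous.tendsto _).comp (((continuous_eval_const (F := C(X × N, X × N)) z).tendsto g).comp
      (hg.comp (tendsto_add_atTop_nat 1)))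
  have h2 : Tendsto (fun n => gs f L π n (L v) (f z)) atTop (𝓝 (g' (f z))) :=
    ((continuous_eval_const (F := C(X × N, X × N)) (f z)).tendsto g').comp hg'
  have h3 : ∀ n, f (gs f L π (n + 1) v z) = gs f L π n (L v) (f z) := by
    intro n
    rw [gs_succ]
    show f (f.symm (gs f L π n (L v) (f z))) = _
    rw [f.apply_symm_apply]
  simp only [h3] at h1
  exact tendsto_nhds_unique h1 h2

/-- the stable leaf of `z` is the orbit of the holonomies -/
theorem leaf (h : Con f A L π S D lam kap) {C : ℝ} (hC : 0 ≤ C) {Θ : V → C(X × N, X × N)}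
    (hΘ : ∀ v ∈ S, Tendsto (fun n => gs f L π n v) atTop (𝓝 (Θ v)) ∧
      dist (Θ v) (ContinuousMap.id _) ≤ C * ‖v‖)
    {ρ C' : ℝ} (hρ0 : 0 ≤ ρ) (hρ : ρ * kap < 1) {z z' : X × N}
    (hz : ∀ n : ℕ, dist (f^[n] z) (f^[n] z') ≤ C' * ρ ^ n) {v : V} (hv : v ∈ S)
    (hb : z'.1 = z.1 + π v) : z' = Θ v z := by
  have hD := h.D0
  have hk := h.kap0
  have hl : 0 < lam := lt_trans one_pos h.lam1
  have hr : kap / lam < 1 := (div_lt_one hl).2 h.dom
  have hit : ∀ (n : ℕ) (v : V), v ∈ S → ∀ z, f^[n] (Θ v z) = Θ (L^[n] v) (f^[n] z) := by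
    intro n
    induction n with
    | zero => intro v _ z; rfl
    | succ n ih =>
      intro v hv z
      rw [iterate_succ_apply, theta_comm (hΘ v hv).1 (hΘ _ (h.inv v hv)).1, ih _ (h.inv v hv),
        iterate_succ_apply, iterate_succ_apply]
  have hC' : 0 ≤ C' := by
    have := (dist_nonneg).trans (hz 0)
    simpa using this
  have key : ∀ n : ℕ, dist z' (Θ v z) ≤
      D * C' * (ρ * kap) ^ n + D * C * D * ‖v‖ * (kap / lam) ^ n := by
    intro n
    have e1 : f.symm^[n] (f^[n] z') = z' := (Function.LeftInverse.iterate f.symm_apply_apply n) _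
    have e2 : f.symm^[n] (f^[n] (Θ v z)) = Θ v z :=
      (Function.LeftInverse.iterate f.symm_apply_apply n) _
    have e3 : (f^[n] z').1 = (f^[n] (Θ v z)).1 := by
      rw [h.itfst, h.itfst, h.theta_fst (hΘ v hv).1, hb]
    have e4 : dist (f^[n] z') (f^[n] (Θ v z)) ≤ C' * ρ ^ n + C * (D * (1 / lam) ^ n * ‖v‖) := by
      have h1 : dist (f^[n] (Θ v z)) (f^[n] z) ≤ C * (D * (1 / lam) ^ n * ‖v‖) := by
        rw [hit n v hv z]
        refine le_trans ?_ (mul_le_mul_of_nonneg_left (h.con v hv n) hC)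
        exact le_trans (ContinuousMap.dist_apply_le_dist (f := Θ (L^[n] v))
          (g := ContinuousMap.id _) (f^[n] z)) (hΘ _ (h.itinv n hv)).2
      have h2 := hz n
      have h3 := dist_triangle_left (f^[n] z') (f^[n] (Θ v z)) (f^[n] z)
      rw [dist_comm (f^[n] z) (f^[n] (Θ v z))] at h3
      linarith
    calc dist z' (Θ v z) = dist (f.symm^[n] (f^[n] z')) (f.symm^[n] (f^[n] (Θ v z))) := by
          rw [e1, e2]
      _ ≤ D * kap ^ n * dist (f^[n] z') (f^[n] (Θ v z)) := h.ver n _ _ e3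
      _ ≤ D * kap ^ n * (C' * ρ ^ n + C * (D * (1 / lam) ^ n * ‖v‖)) :=
          mul_le_mul_of_nonneg_left e4 (by positivity)
      _ = D * C' * (ρ * kap) ^ n + D * C * D * ‖v‖ * (kap / lam) ^ n := by
          rw [div_pow, div_pow, one_pow, mul_pow]; ring
  have hlim : Tendsto (fun n : ℕ => D * C' * (ρ * kap) ^ n + D * C * D * ‖v‖ * (kap / lam) ^ n)
      atTop (𝓝 0) := by
    have h1 := (tendsto_pow_atTop_nhds_zero_of_lt_one (mul_nonneg hρ0 hk) hρ).const_mul (D * C')
    have h2 := (tendsto_pow_atTop_nhds_zero_of_lt_one (div_nonneg hk hl.le) hr).const_mul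
      (D * C * D * ‖v‖)
    simpa using h1.add h2
  exact dist_le_zero.1 (ge_of_tendsto' hlim key)

omit [CompactSpace X] [CompactSpace N] [NormedAddCommGroup V] in
theorem gs_add [AddCommGroup V] (hL : ∀ u v, L (u + v) = L u + L v)
    (hπ : ∀ u v, π (u + v) = π u + π v) (n : ℕ) (u v : V) :
    (gs f L π n u).comp (gs f L π n v) = gs f L π n (u + v) := by
  have hit : ∀ (n : ℕ) (u v : V), L^[n] (u + v) = L^[n] u + L^[n] v := by
    intro n
    induction n with
    | zero => intro u v; rfl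
    | succ n ih =>
      intro u v
      rw [iterate_succ_apply, iterate_succ_apply, iterate_succ_apply, hL, ih]
  ext1 z
  show f.symm^[n] (tr π (L^[n] u) (f^[n] (f.symm^[n] (tr π (L^[n] v) (f^[n] z))))) =
    f.symm^[n] (tr π (L^[n] (u + v)) (f^[n] z))
  rw [(Function.LeftInverse.iterate f.apply_symm_apply n) _, hit]
  congr 1
  refine Prod.ext ?_ rfl
  show (f^[n] z).1 + π (L^[n] v) + π (L^[n] u) = (f^[n] z).1 + π (L^[n] u + L^[n] v)
  rw [hπ]; abel

/-- the holonomies form a group -/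
theorem theta_add (hL : ∀ u v, L (u + v) = L u + L v) (hπ : ∀ u v, π (u + v) = π u + π v)
    {u v : V} {g h k : C(X × N, X × N)} (hg : Tendsto (fun n => gs f L π n u) atTop (𝓝 g))
    (hh : Tendsto (fun n => gs f L π n v) atTop (𝓝 h))
    (hk : Tendsto (fun n => gs f L π n (u + v)) atTop (𝓝 k)) : g.comp h = k := by
  have h1 : Tendsto (fun n => (gs f L π n u).comp (gs f L π n v)) atTop (𝓝 (g.comp h)) :=
    hg.compCM hh
  simp only [gs_add hL hπ] at h1
  exact tendsto_nhds_unique h1 hk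

end Con

end Hol

section Meas

variable {M : Type} [MetricSpace M] [CompactSpace M] [MeasurableSpace M] [BorelSpace M]

theorem isClosed_mp (μ : Measure M) [IsProbabilityMeasure μ] :
    IsClosed {g : C(M, M) | MeasurePreserving g μ μ} := by
  refine isClosed_of_closure_subset fun g hg => ?_
  obtain ⟨u, hu, hlim⟩ := mem_closure_iff_seq_limit.1 hg
  refine ⟨g.continuous.measurable, ?_⟩
  have : IsProbabilityMeasure (μ.map g) :=
    Measure.isProbabilityMeasure_map g.continuous.measurable.aemeasurable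
  refine ext_of_forall_integral_eq_of_IsFiniteMeasure fun F => ?_
  rw [integral_map g.continuous.measurable.aemeasurable
    F.continuous.measurable.aestronglyMeasurable]
  have h1 : Tendsto (fun n => ∫ x, F (u n x) ∂μ) atTop (𝓝 (∫ x, F (g x) ∂μ)) := by
    refine tendsto_integral_of_dominated_convergence (fun _ => ‖F‖) (fun n => ?_)
      (integrable_const _) (fun n => Eventually.of_forall fun x => F.norm_coe_le_norm _) ?_
    · exact (F.continuous.comp (u n).continuous).measurable.aestronglyMeasurable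
    · refine Eventually.of_forall fun x => (F.continuous.tendsto _).comp ?_
      exact ((continuous_eval_const (F := C(M, M)) x).tendsto g).comp hlim
  have h2 : ∀ n, ∫ x, F (u n x) ∂μ = ∫ x, F x ∂μ := by
    intro n
    have h3 := integral_map (μ := μ) (hu n).measurable.aemeasurable
      (f := fun x => F x) (F.continuous.measurable.aestronglyMeasurable)
    rw [← h3, (hu n).map_eq]
  simp only [h2] at h1
  exact (tendsto_nhds_unique h1 tendsto_const_nhds)

end Meas

end Pool.PSTow
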