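import Pool.Agent.Work.MP_adbfe6_an.Tow.Defs

/-!
# MP_adbfe6_an, towers: hyperbolic automorphisms of the torus
-/

open MeasureTheory Set Filter Topology Function

namespace Pool.PSTow

/-- the covering `ℝ^a → (ℝ/ℤ)^a` -/
def cov {a : ℕ} (v : Fin a → ℝ) : Fin a → UnitAddCircle := fun i => (v i : UnitAddCircle)

section

variable {a : ℕ} {A B : Matrix (Fin a) (Fin a) ℤ} {Es Eu : Submodule ℝ (Fin a → ℝ)} {D lam : ℝ}

theorem HypSplit.swap (h : HypSplit A B Es Eu D lam) : HypSplit B A Eu Es D lam where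
  mulAB := h.mulBA
  mulBA := h.mulAB
  sup_eq := by rw [sup_comm]; exact h.sup_eq
  invs := h.invu.symm
  invu := h.invs.symm
  cons := h.conu
  conu := h.cons
  one_lt := h.one_lt

theorem torusMap_add (A : Matrix (Fin a) (Fin a) ℤ) (x y : Fin a → UnitAddCircle) :
    torusMap A (x + y) = torusMap A x + torusMap A y := by
  funext i
  simp [torusMap, smul_add, Finset.sum_add_distrib]

theorem linMap_add (A : Matrix (Fin a) (Fin a) ℤ) (x y : Fin a → ℝ) :
    linMap A (x + y) = linMap A x + linMap A y := by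
  funext i
  simp [linMap, mul_add, Finset.sum_add_distrib]

theorem torusMap_cov (A : Matrix (Fin a) (Fin a) ℤ) (v : Fin a → ℝ) :
    torusMap A (cov v) = cov (linMap A v) := by
  funext i
  show ∑ j, A i j • ((v j : ℝ) : UnitAddCircle) = ((∑ j, (A i j : ℝ) * v j : ℝ) : UnitAddCircle)
  have h1 : ((∑ j, (A i j : ℝ) * v j : ℝ) : UnitAddCircle) =
      ∑ j, (((A i j : ℝ) * v j : ℝ) : UnitAddCircle) :=
    map_sum (QuotientAddGroup.mk' (AddSubgroup.zmultiples (1 : ℝ))) _ _
  rw [h1]
  refine Finset.sum_congr rfl fun j _ => ?_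
  rw [← zsmul_eq_mul]
  rfl

theorem linMap_mul (A B : Matrix (Fin a) (Fin a) ℤ) (v : Fin a → ℝ) :
    linMap A (linMap B v) = linMap (A * B) v := by
  funext i
  simp only [linMap, Matrix.mul_apply, Int.cast_sum, Int.cast_mul, Finset.mul_sum, Finset.sum_mul]
  rw [Finset.sum_comm]
  refine Finset.sum_congr rfl fun j _ => Finset.sum_congr rfl fun l _ => by ring

theorem torusMap_mul (A B : Matrix (Fin a) (Fin a) ℤ) (v : Fin a → UnitAddCircle) :
    torusMap A (torusMap B v) = torusMap (A * B) v := by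
  funext i
  simp only [torusMap, Matrix.mul_apply, Finset.smul_sum, Finset.sum_smul]
  rw [Finset.sum_comm]
  refine Finset.sum_congr rfl fun j _ => Finset.sum_congr rfl fun l _ => by rw [mul_smul]

theorem linMap_one (v : Fin a → ℝ) : linMap (1 : Matrix (Fin a) (Fin a) ℤ) v = v := by
  funext i
  simp [linMap, Matrix.one_apply]

theorem torusMap_one (v : Fin a → UnitAddCircle) :
    torusMap (1 : Matrix (Fin a) (Fin a) ℤ) v = v := by
  funext i
  simp [torusMap, Matrix.one_apply]

theorem HypSplit.linBA (h : HypSplit A B Es Eu D lam) (v : Fin a → ℝ) :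
    linMap B (linMap A v) = v := by rw [linMap_mul, h.mulBA, linMap_one]

theorem HypSplit.torBA (h : HypSplit A B Es Eu D lam) (v : Fin a → UnitAddCircle) :
    torusMap B (torusMap A v) = v := by rw [torusMap_mul, h.mulBA, torusMap_one]

theorem linMap_bdd (A : Matrix (Fin a) (Fin a) ℤ) : ∃ C : ℝ, 0 ≤ C ∧ ∀ v, ‖linMap A v‖ ≤ C * ‖v‖ := by
  refine ⟨∑ i, ∑ j, |(A i j : ℝ)|, by positivity, fun v => ?_⟩
  refine (pi_norm_le_iff_of_nonneg (by positivity)).2 fun i => ?_
  calc ‖linMap A v i‖ ≤ ∑ j, ‖(A i j : ℝ) * v j‖ := norm_sum_le _ _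
    _ ≤ ∑ j, |(A i j : ℝ)| * ‖v‖ := Finset.sum_le_sum fun j _ => by
        rw [norm_mul, Real.norm_eq_abs]
        exact mul_le_mul_of_nonneg_left (norm_le_pi_norm v j) (abs_nonneg _)
    _ = (∑ j, |(A i j : ℝ)|) * ‖v‖ := by rw [Finset.sum_mul]
    _ ≤ (∑ i, ∑ j, |(A i j : ℝ)|) * ‖v‖ := by
        refine mul_le_mul_of_nonneg_right ?_ (norm_nonneg _)
        exact Finset.single_le_sum (f := fun i => ∑ j, |(A i j : ℝ)|) (fun i _ => by positivity)
          (Finset.mem_univ i)

theorem cov_dist (x : Fin a → UnitAddCircle) (u : Fin a → ℝ) : dist (x + cov u) x ≤ ‖u‖ := by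
  refine (dist_pi_le_iff (norm_nonneg _)).2 fun i => ?_
  rw [dist_eq_norm]
  have : (x + cov u) i - x i = ((u i : ℝ) : UnitAddCircle) := by simp [cov]
  rw [this]
  exact (QuotientAddGroup.norm_mk_le_norm).trans (norm_le_pi_norm u i)

theorem cov_lift (x : Fin a → UnitAddCircle) : ∃ r : Fin a → ℝ, cov r = x ∧ ‖r‖ ≤ ‖x‖ := by
  have h1 : ∀ y : UnitAddCircle, ∃ r : ℝ, (r : UnitAddCircle) = y ∧ |r| = ‖y‖ := by
    intro y
    obtain ⟨t, rfl⟩ := QuotientAddGroup.mk_surjective y
    refine ⟨t - round t, ?_, (UnitAddCircle.norm_eq (x := t)).symm⟩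
    have h2 : ((t - round t : ℝ) : UnitAddCircle) = (t : UnitAddCircle) - ((round t : ℝ) : UnitAddCircle) :=
      AddCircle.coe_sub ..
    rw [h2]
    have h3 : (((round t : ℤ) : ℝ) : UnitAddCircle) = 0 :=
      (AddCircle.coe_eq_zero_iff (1 : ℝ)).2 ⟨round t, by simp⟩
    rw [h3, sub_zero]
  choose g hg hg' using h1
  refine ⟨fun i => g (x i), funext fun i => hg _, ?_⟩
  refine (pi_norm_le_iff_of_nonneg (norm_nonneg _)).2 fun i => ?_
  rw [Real.norm_eq_abs, hg']
  exact norm_le_pi_norm x i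

theorem cov_sub_eq_zero {r s : Fin a → ℝ} (h : cov r = cov s) (hs : ‖r - s‖ ≤ 1 / 2) : r = s := by
  funext i
  have h1 : ((r i - s i : ℝ) : UnitAddCircle) = 0 := by
    have h2 : (r i : UnitAddCircle) = (s i : UnitAddCircle) := congrFun h i
    rw [AddCircle.coe_sub, h2, sub_self]
  have h2 : |r i - s i| ≤ |(1 : ℝ)| / 2 := by
    rw [abs_one]
    exact (norm_le_pi_norm (r - s) i).trans hs
  have h3 := (AddCircle.norm_coe_eq_abs_iff (1 : ℝ) one_ne_zero).2 h2
  have h4 : |r i - s i| = 0 := by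
    rw [← h3]
    show ‖((r i - s i : ℝ) : UnitAddCircle)‖ = 0
    rw [h1, norm_zero]
  exact sub_eq_zero.1 (abs_eq_zero.1 h4)

/-- points of the torus whose orbit tends to zero are in the image of the stable subspace -/
theorem HypSplit.stable (h : HypSplit A B Es Eu D lam) (x : Fin a → UnitAddCircle)
    (hx : Tendsto (fun n => ‖(torusMap A)^[n] x‖) atTop (𝓝 0)) : ∃ v ∈ Es, cov v = x := by
  obtain ⟨C, hC, hCv⟩ := linMap_bdd A
  choose r hr hr' using fun n => cov_lift ((torusMap A)^[n] x)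
  have hr0 : Tendsto (fun n => ‖r n‖) atTop (𝓝 0) :=
    squeeze_zero (fun n => norm_nonneg _) hr' hx
  have h1 : ∀ᶠ n in atTop, ‖r n‖ < 1 / (2 * (C + 1)) :=
    (tendsto_order.1 hr0).2 _ (by positivity)
  obtain ⟨N, hN⟩ := eventually_atTop.1 h1
  have hstep : ∀ n ≥ N, linMap A (r n) = r (n + 1) := by
    intro n hn
    refine cov_sub_eq_zero ?_ ?_
    · rw [← torusMap_cov, hr, hr, iterate_succ_apply']
    · have h2 := hN n hn
      have h3 := hN (n + 1) (by omega)
      have h4 := hCv (r n)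
      have h5 := norm_sub_le (linMap A (r n)) (r (n + 1))
      have h6 : C * ‖r n‖ ≤ C * (1 / (2 * (C + 1))) := mul_le_mul_of_nonneg_left h2.le hC
      have h7 : C * (1 / (2 * (C + 1))) + 1 / (2 * (C + 1)) = 1 / 2 := by
        field_simp
      linarith
  have hit : ∀ m, (linMap A)^[m] (r N) = r (N + m) := by
    intro m
    induction m with
    | zero => rfl
    | succ m ih => rw [iterate_succ_apply', ih, hstep _ (by omega)]; rfl
  obtain ⟨s, hs, u, hu, hsu⟩ := Submodule.mem_sup.1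
    (show r N ∈ Es ⊔ Eu by rw [h.sup_eq]; exact Submodule.mem_top)
  have hl : 0 < lam := lt_trans one_pos h.one_lt
  have hl1 : 1 / lam < 1 := (div_lt_one hl).2 h.one_lt
  have hpow : Tendsto (fun n : ℕ => D * (1 / lam) ^ n * ‖s‖) atTop (𝓝 0) := by
    have := ((tendsto_pow_atTop_nhds_zero_of_lt_one (by positivity) hl1).const_mul D).mul_const ‖s‖
    simpa using this
  have hiadd : ∀ (n : ℕ) (v w : Fin a → ℝ), (linMap A)^[n] (v + w) =
      (linMap A)^[n] v + (linMap A)^[n] w := by
    intro n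
    induction n with
    | zero => intro v w; rfl
    | succ n ih =>
      intro v w
      rw [iterate_succ_apply, iterate_succ_apply, iterate_succ_apply, linMap_add, ih]
  have hinvu : ∀ (n : ℕ) (v : Fin a → ℝ), v ∈ Eu → (linMap A)^[n] v ∈ Eu := by
    intro n
    induction n with
    | zero => intro v hv; exact hv
    | succ n ih => intro v hv; rw [iterate_succ_apply]; exact ih _ (h.invu.1 v hv)
  have hinvs : ∀ (n : ℕ) (v : Fin a → ℝ), v ∈ Es → (linMap B)^[n] v ∈ Es := by
    intro n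
    induction n with
    | zero => intro v hv; exact hv
    | succ n ih => intro v hv; rw [iterate_succ_apply]; exact ih _ (h.invs.2 v hv)
  have hu0 : u = 0 := by
    have h2 : ∀ m : ℕ, ‖u‖ ≤ |D| * (‖r (N + m)‖ + D * (1 / lam) ^ m * ‖s‖) := by
      intro m
      have h3 : (linMap A)^[m] u = r (N + m) - (linMap A)^[m] s := by
        rw [← hit m, ← hsu, hiadd]; abel
      have h4 : ‖(linMap A)^[m] u‖ ≤ ‖r (N + m)‖ + D * (1 / lam) ^ m * ‖s‖ := by
        rw [h3]
        exact (norm_sub_le _ _).trans (add_le_add le_rfl (h.cons s hs m))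
      have h5 : (linMap B)^[m] ((linMap A)^[m] u) = u :=
        (Function.LeftInverse.iterate h.linBA m) u
      have h6 := h.conu _ (hinvu m u hu) m
      rw [h5] at h6
      have h7 : (1 / lam) ^ m ≤ 1 := pow_le_one₀ (by positivity) hl1.le
      calc ‖u‖ ≤ D * (1 / lam) ^ m * ‖(linMap A)^[m] u‖ := h6
        _ ≤ |D| * 1 * ‖(linMap A)^[m] u‖ := by
            refine mul_le_mul_of_nonneg_right ?_ (norm_nonneg _)
            exact mul_le_mul (le_abs_self D) h7 (by positivity) (abs_nonneg _)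
        _ = |D| * ‖(linMap A)^[m] u‖ := by rw [mul_one]
        _ ≤ |D| * (‖r (N + m)‖ + D * (1 / lam) ^ m * ‖s‖) :=
            mul_le_mul_of_nonneg_left h4 (abs_nonneg _)
    have h8 : Tendsto (fun m : ℕ => |D| * (‖r (N + m)‖ + D * (1 / lam) ^ m * ‖s‖)) atTop (𝓝 0) := by
      have h9 : Tendsto (fun m : ℕ => ‖r (N + m)‖) atTop (𝓝 0) := by
        have := hr0.comp (tendsto_add_atTop_nat N)
        refine this.congr fun m => ?_
        simp [add_comm]
      simpa using (h9.add hpow).const_mul |D|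
    exact norm_le_zero_iff.1 (ge_of_tendsto' h8 h2)
  refine ⟨(linMap B)^[N] (r N), hinvs N _ ?_, ?_⟩
  · rw [← hsu, hu0, add_zero]; exact hs
  · have h2 : ∀ (n : ℕ) (v : Fin a → ℝ), (torusMap A)^[n] (cov v) = cov ((linMap A)^[n] v) := by
      intro n
      induction n with
      | zero => intro v; rfl
      | succ n ih => intro v; rw [iterate_succ_apply, iterate_succ_apply, torusMap_cov, ih]
    have h3 : (torusMap A)^[N] (cov ((linMap B)^[N] (r N))) = (torusMap A)^[N] x := by
      rw [h2, ← hr N]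
      congr 1
      exact (Function.LeftInverse.iterate h.swap.linBA N) (r N)
    have h4 := congrArg ((torusMap B)^[N]) h3
    rw [(Function.LeftInverse.iterate h.torBA N) _, (Function.LeftInverse.iterate h.torBA N) _] at h4
    exact h4

end

end Pool.PSTow
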