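import Pool.Agent.Work.MP_adbfe6_an.Tow.Hol
import Pool.Agent.Work.MP_adbfe6_an.Bd.B02
import Pool.Agent.Work.MP_adbfe6_an.Tow.Defs
import Pool.Agent.Work.MP_adbfe6_an.Tow.Tor
import Pool.Agent.Work.MP_adbfe6_an.Bd.B01

/-!
# MP_adbfe6_an, towers: the theorem
-/

open MeasureTheory Set Filter Topology Function

namespace Pool.PSTow

section

variable {a k : ℕ} {K : Fin k → Type} [∀ i, Group (K i)] [∀ i, MetricSpace (K i)]
  [∀ i, CompactSpace (K i)] [∀ i, IsTopologicalGroup (K i)]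
  {G N : Type} [Group G] [TopologicalSpace G] [IsTopologicalGroup G]
  [LocallyCompactSpace G] [SecondCountableTopology G] [T2Space G]
  [MetricSpace N] [CompactSpace N] [MulAction G N] [ContinuousSMul G N]

/-- agreement in the base coordinate and the first `n` fibre coordinates -/
def Agr (n : ℕ) (z z' : Sp a K N) : Prop :=
  z.1 = z'.1 ∧ ∀ j : Fin k, j.val < n → z.2.1 j = z'.2.1 j

/-- the closed class of maps of the tower -/
def Cls (a : ℕ) {k : ℕ} (K : Fin k → Type) [∀ i, Group (K i)] [∀ i, MetricSpace (K i)]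
    (G N : Type) [Group G] [MetricSpace N] [MulAction G N] : Set C(Sp a K N, Sp a K N) :=
  {g | (∀ z z', (g z).1 - (g z').1 = z.1 - z'.1) ∧
    (∀ (i : Fin k) (z z' : Sp a K N), Agr i.val z z' →
      ((g z').2.1 i)⁻¹ * (g z).2.1 i = (z'.2.1 i)⁻¹ * z.2.1 i) ∧
    ∀ x y, ∃ h ∈ Act G N, ∀ w, (g (x, (y, w))).2.2 = h w}

/-- last coordinate over `(x, y)` -/
def secT (x : Fin a → UnitAddCircle) (y : ∀ i, K i) (g : C(Sp a K N, Sp a K N)) : C(N, N) :=
  ⟨fun w => (g (x, (y, w))).2.2, by fun_prop⟩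

theorem continuous_secT (x : Fin a → UnitAddCircle) (y : ∀ i, K i) :
    Continuous (secT (N := N) x y) := by
  have h : Continuous fun g : C(Sp a K N, Sp a K N) =>
      (⟨fun z => z.2.2, by fun_prop⟩ : C(Sp a K N, N)).comp
        (g.comp (⟨fun w => (x, (y, w)), by fun_prop⟩ : C(N, Sp a K N))) :=
    (ContinuousMap.continuous_postcomp _).comp (ContinuousMap.continuous_precomp _)
  exact h

theorem Cls_closed (hcl : IsClosed (Act G N)) : IsClosed (Cls a K G N) := by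
  have h1 : Cls a K G N = {g : C(Sp a K N, Sp a K N) | ∀ z z', (g z).1 - (g z').1 = z.1 - z'.1} ∩
      ({g : C(Sp a K N, Sp a K N) | ∀ (i : Fin k) (z z' : Sp a K N), Agr i.val z z' →
      ((g z').2.1 i)⁻¹ * (g z).2.1 i = (z'.2.1 i)⁻¹ * z.2.1 i} ∩
      {g : C(Sp a K N, Sp a K N) | ∀ x y, secT x y g ∈ Act G N}) := by
    ext g
    constructor
    · rintro ⟨h1, h2, h3⟩
      refine ⟨h1, h2, fun x y => ?_⟩
      obtain ⟨h, hh, hhw⟩ := h3 x y
      have : secT x y g = h := ContinuousMap.ext fun w => hhw w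
      rw [this]; exact hh
    · rintro ⟨h1, h2, h3⟩
      exact ⟨h1, h2, fun x y => ⟨_, h3 x y, fun w => rfl⟩⟩
  have hev : ∀ z : Sp a K N, Continuous fun g : C(Sp a K N, Sp a K N) => g z := fun z =>
    continuous_eval_const (F := C(Sp a K N, Sp a K N)) z
  have hev2 : ∀ (z : Sp a K N) (i : Fin k), Continuous fun g : C(Sp a K N, Sp a K N) => (g z).2.1 i :=
    fun z i => (continuous_apply i).comp (continuous_fst.comp (continuous_snd.comp (hev z)))
  rw [h1]
  refine IsClosed.inter ?_ (IsClosed.inter ?_ ?_)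
  · simp only [setOf_forall]
    refine isClosed_iInter fun z => isClosed_iInter fun z' => isClosed_eq ?_ continuous_const
    exact (continuous_fst.comp (hev z)).sub (continuous_fst.comp (hev z'))
  · simp only [setOf_forall]
    refine isClosed_iInter fun i => isClosed_iInter fun z => isClosed_iInter fun z' =>
      isClosed_iInter fun _ => isClosed_eq ?_ continuous_const
    exact ((hev2 z' i).inv).mul (hev2 z i)
  · simp only [setOf_forall]
    exact isClosed_iInter fun x => isClosed_iInter fun y => hcl.preimage (continuous_secT x y)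

theorem Cls_tr (u : Fin a → ℝ) : tr (N := (∀ i, K i) × N) cov u ∈ Cls a K G N := by
  refine ⟨fun z z' => ?_, fun i z z' _ => rfl, fun x y => ⟨ContinuousMap.id N, ⟨1, fun w => ?_⟩,
    fun w => rfl⟩⟩
  · show z.1 + cov u - (z'.1 + cov u) = z.1 - z'.1
    abel
  · rw [one_smul]; rfl

theorem Cls_id : ContinuousMap.id (Sp a K N) ∈ Cls a K G N :=
  ⟨fun _ _ => rfl, fun _ _ _ _ => rfl, fun x y => ⟨ContinuousMap.id N, ⟨1, fun w => by
    rw [one_smul]; rfl⟩, fun w => rfl⟩⟩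

theorem Cls_agr {g : C(Sp a K N, Sp a K N)} (hg : g ∈ Cls a K G N) {n : ℕ} {z z' : Sp a K N}
    (h : Agr n z z') : Agr n (g z) (g z') := by
  refine ⟨?_, fun j hj => ?_⟩
  · have := hg.1 z z'
    rw [h.1, sub_self] at this
    exact sub_eq_zero.1 this
  · have h4 := hg.2.1 j z z' ⟨h.1, fun l hl => h.2 l (hl.trans hj)⟩
    rw [h.2 j hj, inv_mul_cancel, inv_mul_eq_one] at h4
    exact h4.symm

theorem Agr.full {z z' : Sp a K N} (h : Agr k z z') : z.1 = z'.1 ∧ z.2.1 = z'.2.1 :=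
  ⟨h.1, funext fun j => h.2 j j.2⟩

theorem Act_comp {h h' : C(N, N)} (hh : h ∈ Act G N) (hh' : h' ∈ Act G N) : h.comp h' ∈ Act G N := by
  obtain ⟨g, hg⟩ := hh
  obtain ⟨g', hg'⟩ := hh'
  refine ⟨g * g', fun w => ?_⟩
  rw [ContinuousMap.comp_apply, hg', hg, mul_smul]

/-- values of the last coordinate -/
theorem Cls_top {g : C(Sp a K N, Sp a K N)} (hg : g ∈ Cls a K G N) (x : Fin a → UnitAddCircle)
    (y : ∀ i, K i) : ∃ γ : G, ∃ x' y', ∀ w, g (x, (y, w)) = (x', (y', γ • w)) := by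
  obtain ⟨h, ⟨γ, hγ⟩, hhw⟩ := hg.2.2 x y
  by_cases hN : Nonempty N
  · obtain ⟨w₀⟩ := hN
    refine ⟨γ, (g (x, (y, w₀))).1, (g (x, (y, w₀))).2.1, fun w => ?_⟩
    have h1 : Agr k (g (x, (y, w))) (g (x, (y, w₀))) := Cls_agr hg ⟨rfl, fun j _ => rfl⟩
    refine Prod.ext h1.full.1 (Prod.ext h1.full.2 ?_)
    show (g (x, (y, w))).2.2 = γ • w
    rw [hhw, hγ]
  · exact ⟨γ, x, y, fun w => absurd ⟨w⟩ hN⟩

theorem Cls_comp {g h : C(Sp a K N, Sp a K N)} (hg : g ∈ Cls a K G N) (hh : h ∈ Cls a K G N) :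
    g.comp h ∈ Cls a K G N := by
  refine ⟨fun z z' => ?_, fun i z z' h1 => ?_, fun x y => ?_⟩
  · show (g (h z)).1 - (g (h z')).1 = _
    rw [hg.1, hh.1]
  · show ((g (h z')).2.1 i)⁻¹ * (g (h z)).2.1 i = _
    rw [hg.2.1 i _ _ (Cls_agr hh h1), hh.2.1 i z z' h1]
  · obtain ⟨γ, x', y', h1⟩ := Cls_top hh x y
    obtain ⟨h', hh', h2⟩ := hg.2.2 x' y'
    refine ⟨h'.comp ((toC G N) γ), Act_comp hh' ⟨γ, fun w => rfl⟩, fun w => ?_⟩
    show (g (h (x, (y, w)))).2.2 = h' (γ • w)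
    rw [h1, h2]

/-- the class of the towers -/
def InCls (K : Fin k → Type) [∀ i, Group (K i)] [∀ i, MetricSpace (K i)] (G : Type) {N : Type}
    [Group G] [MetricSpace N] [MulAction G N] (A : Matrix (Fin a) (Fin a) ℤ) (b : N ≃ₜ N)
    (f : Sp a K N ≃ₜ Sp a K N) : Prop :=
  (∀ z, (f z).1 = torusMap A z.1) ∧
  (∀ i : Fin k, ∃ β : K i ≃* K i, ∀ z z' : Sp a K N, Agr i.val z z' →
    ((f z').2.1 i)⁻¹ * (f z).2.1 i = β ((z'.2.1 i)⁻¹ * z.2.1 i)) ∧
  ∀ z, ∃ γ : G, ∀ z', Agr k z z' → (f z').2.2 = γ • b z'.2.2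

theorem HasForm.cls {A : Matrix (Fin a) (Fin a) ℤ} {b : N ≃ₜ N}
    {f : Sp a K N ≃ₜ Sp a K N} (hf : HasForm G A b f) : InCls K G A b f := by
  refine ⟨hf.base, fun i => ?_, fun z => ?_⟩
  · obtain ⟨β, φ, hφ, h⟩ := hf.fibre i
    refine ⟨β, fun z z' h1 => ?_⟩
    rw [h, h, hφ z.1 z.2.1 z'.2.1 (fun j hj => h1.2 j hj), h1.1, map_mul, map_inv]
    group
  · obtain ⟨γ, h⟩ := hf.top
    refine ⟨γ z.1 z.2.1, fun z' h1 => ?_⟩
    rw [h, h1.full.1, h1.full.2]

theorem InCls.agree {A : Matrix (Fin a) (Fin a) ℤ} {b : N ≃ₜ N} {f : Sp a K N ≃ₜ Sp a K N}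
    (hf : InCls K G A b f) {n : ℕ} {z z' : Sp a K N} (h : Agr n z z') : Agr n (f z) (f z') := by
  refine ⟨by rw [hf.1, hf.1, h.1], fun j hj => ?_⟩
  obtain ⟨β, hβ⟩ := hf.2.1 j
  have h3 := hβ z z' ⟨h.1, fun l hl => h.2 l (hl.trans hj)⟩
  rw [h.2 j hj, inv_mul_cancel, map_one, inv_mul_eq_one] at h3
  exact h3.symm

theorem Normalises.symm {b : N ≃ₜ N} (hb : Normalises G b) : Normalises G b.symm := by
  refine ⟨fun g => ?_, fun g => ?_⟩
  · obtain ⟨g', hg'⟩ := hb.2 g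
    refine ⟨g', fun w => ?_⟩
    have h1 := hg' (b.symm w)
    rw [b.apply_symm_apply] at h1
    rw [← h1, b.symm_apply_apply]
  · obtain ⟨g', hg'⟩ := hb.1 g
    refine ⟨g', fun w => ?_⟩
    have h1 := hg' (b.symm w)
    rw [b.apply_symm_apply] at h1
    rw [← h1, b.symm_apply_apply]

theorem InCls.symm {A B : Matrix (Fin a) (Fin a) ℤ} {b : N ≃ₜ N} {f : Sp a K N ≃ₜ Sp a K N}
    (hBA : B * A = 1) (hnb : Normalises G b) (hf : InCls K G A b f) :
    InCls K G B b.symm f.symm := by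
  have hb : ∀ z, (f.symm z).1 = torusMap B z.1 := by
    intro z
    have h1 := hf.1 (f.symm z)
    rw [f.apply_symm_apply] at h1
    rw [h1, torusMap_mul, hBA, torusMap_one]
  -- agreement passes to `f.symm`
  have hsa : ∀ {m : ℕ} {z z' : Sp a K N}, Agr m z z' → Agr m (f.symm z) (f.symm z') := by
    intro m z z' h
    have h3 : (f.symm z).1 = (f.symm z').1 := by rw [hb, hb, h.1]
    have h4 : ∀ (n : ℕ) (j : Fin k), j.val = n → j.val < m →
        (f.symm z).2.1 j = (f.symm z').2.1 j := by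
      intro n
      induction n using Nat.strong_induction_on with
      | _ n ih =>
        intro j hjn hj
        obtain ⟨β, hβ⟩ := hf.2.1 j
        have h5 := hβ (f.symm z) (f.symm z') ⟨h3,
          (fun l hl => ih l.val (by rw [← hjn]; exact hl) l rfl (hl.trans hj))⟩
        rw [f.apply_symm_apply, f.apply_symm_apply, h.2 j hj, inv_mul_cancel] at h5
        have h6 : ((f.symm z').2.1 j)⁻¹ * (f.symm z).2.1 j = 1 :=
          (MulEquiv.map_eq_one_iff β).1 h5.symm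
        rw [inv_mul_eq_one] at h6
        exact h6.symm
    exact ⟨h3, fun j hj => h4 j.val j rfl hj⟩
  refine ⟨hb, fun i => ?_, fun z => ?_⟩
  · obtain ⟨β, hβ⟩ := hf.2.1 i
    refine ⟨β.symm, fun z z' h1 => ?_⟩
    have h3 := hβ (f.symm z) (f.symm z') (hsa h1)
    rw [f.apply_symm_apply, f.apply_symm_apply] at h3
    rw [h3, MulEquiv.symm_apply_apply]
  · obtain ⟨γ, hγ⟩ := hf.2.2 (f.symm z)
    obtain ⟨γ', hγ'⟩ := hnb.symm.1 γ⁻¹
    refine ⟨γ', fun z' h1 => ?_⟩
    have h2 := hγ (f.symm z') (hsa h1)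
    rw [f.apply_symm_apply] at h2
    rw [← hγ', h2, inv_smul_smul, b.symm_apply_apply]

theorem Cls_cnj {A B : Matrix (Fin a) (Fin a) ℤ} {b : N ≃ₜ N} {f : Sp a K N ≃ₜ Sp a K N}
    (hBA : B * A = 1) (hnb : Normalises G b) (hf : InCls K G A b f) {g : C(Sp a K N, Sp a K N)} (hg : g ∈ Cls a K G N) :
    cnj f.symm g ∈ Cls a K G N := by
  have hinj : Injective (torusMap A) := by
    intro x y hxy
    have := congrArg (torusMap B) hxy
    rwa [torusMap_mul, torusMap_mul, hBA, torusMap_one, torusMap_one] at this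
  have hsub : ∀ x y, torusMap A (x - y) = torusMap A x - torusMap A y := by
    intro x y
    have := torusMap_add A (x - y) y
    rw [sub_add_cancel] at this
    rw [this, add_sub_cancel_right]
  have hsb : ∀ z, torusMap A (f.symm z).1 = z.1 := by
    intro z; rw [← hf.1, f.apply_symm_apply]
  refine ⟨fun z z' => ?_, fun i z z' h1 => ?_, fun x y => ?_⟩
  · show (f.symm (g (f z))).1 - (f.symm (g (f z'))).1 = z.1 - z'.1
    apply hinj
    rw [hsub, hsub, hsb, hsb, hg.1, hf.1, hf.1]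
  · show ((f.symm (g (f z'))).2.1 i)⁻¹ * (f.symm (g (f z))).2.1 i = _
    have h3 := hf.agree h1
    obtain ⟨β, hβ⟩ := hf.2.1 i
    have h9 := hβ _ _ ((hf.symm hBA hnb).agree (Cls_agr hg h3))
    rw [f.apply_symm_apply, f.apply_symm_apply, hg.2.1 i _ _ h3, hβ z z' h1] at h9
    exact (β.injective h9).symm
  · by_cases hN : Nonempty N
    · obtain ⟨w₀⟩ := hN
      obtain ⟨γ₁, h₁⟩ := hf.2.2 (x, (y, w₀))
      obtain ⟨γ₂, x', y', h₂⟩ := Cls_top hg (f (x, (y, w₀))).1 (f (x, (y, w₀))).2.1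
      obtain ⟨γ₃, h₃⟩ := (hf.symm hBA hnb).2.2 (x', (y', w₀))
      obtain ⟨γ', hγ'⟩ := hnb.symm.1 (γ₂ * γ₁)
      refine ⟨toC G N (γ₃ * γ'), ⟨_, fun w => rfl⟩, fun w => ?_⟩
      show (f.symm (g (f (x, (y, w))))).2.2 = (γ₃ * γ') • w
      have e0 : Agr k (x, (y, w₀)) (x, (y, w)) := ⟨rfl, fun j _ => rfl⟩
      have e1 : f (x, (y, w)) = ((f (x, (y, w₀))).1, ((f (x, (y, w₀))).2.1, γ₁ • b w)) := by
        have e2 := (hf.agree e0).full
        exact Prod.ext e2.1.symm (Prod.ext e2.2.symm (h₁ _ e0))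
      rw [e1, h₂, h₃ (x', (y', γ₂ • γ₁ • b w)) ⟨rfl, fun j _ => rfl⟩]
      show γ₃ • b.symm (γ₂ • γ₁ • b w) = (γ₃ * γ') • w
      rw [← mul_smul γ₂, hγ', b.symm_apply_apply, mul_smul]
    · exact ⟨ContinuousMap.id N, ⟨1, fun w => absurd ⟨w⟩ hN⟩, fun w => absurd ⟨w⟩ hN⟩

theorem Cls_sub [Nonempty N] : Cls a K G N ⊆ Sk {r : C(Fin a → UnitAddCircle,
    Fin a → UnitAddCircle) | ∃ s, ∀ y, r y = s + y} (TriN K G N) := by
  obtain ⟨w₀⟩ := ‹Nonempty N›
  intro g hg
  refine ⟨?_, fun x => ⟨sec x g, ⟨?_, ?_⟩, fun w => rfl⟩⟩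
  · refine ⟨⟨fun y => (g (0, (fun _ => 1, w₀))).1 + y, by fun_prop⟩, ⟨_, fun y => rfl⟩,
      fun y w => ?_⟩
    have h1 := hg.1 (y, w) (0, (fun _ => 1, w₀))
    show (g (y, w)).1 = (g (0, (fun _ => 1, w₀))).1 + y
    have h2 : (g (y, w)).1 - (g (0, (fun _ => 1, w₀))).1 = y := by simpa using h1
    exact sub_eq_iff_eq_add'.1 h2
  · intro i w w' hw
    exact hg.2.1 i (x, w) (x, w') ⟨rfl, fun j hj => hw j hj⟩
  · intro y
    exact hg.2.2 x y

instance instProbTorus (a : ℕ) : IsProbabilityMeasure (volume : Measure (Fin a → UnitAddCircle)) := by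
  have : IsProbabilityMeasure (volume : Measure UnitAddCircle) := ⟨UnitAddCircle.measure_univ⟩
  infer_instance

theorem torusMap_continuous (A : Matrix (Fin a) (Fin a) ℤ) : Continuous (torusMap A) := by
  unfold torusMap; fun_prop

theorem torusMap_mp {A B : Matrix (Fin a) (Fin a) ℤ} (hAB : A * B = 1) :
    MeasurePreserving (torusMap A) (volume : Measure (Fin a → UnitAddCircle)) volume := by
  have h := AddMonoidHom.measurePreserving (μ := (volume : Measure (Fin a → UnitAddCircle)))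
    (ν := (volume : Measure (Fin a → UnitAddCircle)))
    (f := AddMonoidHom.mk' (torusMap A) (torusMap_add A)) (torusMap_continuous A)
    (fun x => ⟨torusMap B x, by
      show torusMap A (torusMap B x) = x
      rw [torusMap_mul, hAB, torusMap_one]⟩) rfl
  exact h

variable [∀ i, MeasurableSpace (K i)] [∀ i, BorelSpace (K i)] [MeasurableSpace N] [BorelSpace N]

/-- towers preserve the product of Lebesgue measure and the Haar measures -/
theorem InCls.mp {A B : Matrix (Fin a) (Fin a) ℤ} {b : N ≃ₜ N} {f : Sp a K N ≃ₜ Sp a K N}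
    (hAB : A * B = 1) (hf : InCls K G A b f) (μ : ∀ i, Measure (K i)) [∀ i, IsProbabilityMeasure (μ i)]
    [∀ i, (μ i).IsMulLeftInvariant] (ν : Measure N) [IsProbabilityMeasure ν]
    (hG : ∀ g : G, MeasurePreserving (fun w : N => g • w) ν ν) (hb : MeasurePreserving b ν ν) :
    MeasurePreserving f ((volume : Measure (Fin a → UnitAddCircle)).prod ((Measure.pi μ).prod ν))
      ((volume : Measure (Fin a → UnitAddCircle)).prod ((Measure.pi μ).prod ν)) := by
  obtain ⟨w₀⟩ : Nonempty N := nonempty_of_isProbabilityMeasure ν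
  choose β hβ using hf.2.1
  refine mp_skew volume ((Measure.pi μ).prod ν) ⟨f, f.continuous⟩ (torusMap A) (torusMap_mp hAB)
    hf.1 fun x => ?_
  have hag : ∀ (y : ∀ i, K i) (w w' : N), Agr k (x, (y, w)) (x, (y, w')) :=
    fun y w w' => ⟨rfl, fun j _ => rfl⟩
  refine mp_skew (Measure.pi μ) ν (sec x ⟨f, f.continuous⟩) (fun y => (f (x, (y, w₀))).2.1) ?_ ?_ ?_
  · have h1 := mp_pi k K μ (fun i => β i) (fun i => ?_)
      ⟨fun y => (f (x, (y, w₀))).2.1, by fun_prop⟩ ?_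
    · exact h1
    · have := haar_of_prob (μ i)
      have hcont : Continuous (β i) := by
        have h1 : ∀ y : K i, β i y = ((f (0, (fun _ => 1, w₀))).2.1 i)⁻¹ *
            (f (0, (update (fun _ => 1) i y, w₀))).2.1 i := by
          intro y
          rw [hβ i (0, (update (fun _ => 1) i y, w₀)) (0, (fun _ => 1, w₀))]
          · simp
          · refine ⟨rfl, fun j hj => ?_⟩
            have hji : j ≠ i := fun h => by rw [h] at hj; exact lt_irrefl _ hj
            simp [update_of_ne hji]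
        have h2 : (⇑(β i) : K i → K i) = fun y => ((f (0, (fun _ => 1, w₀))).2.1 i)⁻¹ *
            (f (0, (update (fun _ => 1) i y, w₀))).2.1 i := funext h1
        rw [h2]
        have h3 : Continuous fun y : K i => ((0 : Fin a → UnitAddCircle),
            (update (fun j : Fin k => (1 : K j)) i y, w₀)) :=
          continuous_const.prodMk ((continuous_const.update i continuous_id).prodMk continuous_const)
        exact continuous_const.mul ((continuous_apply i).comp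
          (continuous_fst.comp (continuous_snd.comp (f.continuous.comp h3))))
      exact MonoidHom.measurePreserving (f := (β i).toMonoidHom) hcont (β i).surjective rfl
    · intro i z z' h
      exact hβ i (x, (z, w₀)) (x, (z', w₀)) ⟨rfl, fun j hj => h j hj⟩
  · rintro ⟨y, w⟩
    exact (hf.agree (hag y w w₀)).full.2
  · intro y
    obtain ⟨γ, hγ⟩ := hf.2.2 (x, (y, w₀))
    have h1 : (⇑(sec y (sec x ⟨f, f.continuous⟩)) : N → N) = (fun w => γ • w) ∘ b := by
      funext w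
      exact hγ (x, (y, w)) (hag y w₀ w)
    rw [h1]; exact (hG γ).comp hb

omit [∀ i, MeasurableSpace (K i)] [∀ i, BorelSpace (K i)] [MeasurableSpace N] [BorelSpace N] in
theorem con_of {A B : Matrix (Fin a) (Fin a) ℤ} {Es Eu : Submodule ℝ (Fin a → ℝ)} {D lam : ℝ}
    {kap : ℝ} {f : Sp a K N ≃ₜ Sp a K N} (h : HypSplit A B Es Eu D lam)
    (hb : ∀ z, (f z).1 = torusMap A z.1)
    (hlip : ∃ C : ℝ, ∀ z z', dist (f.symm z) (f.symm z') ≤ C * dist z z')
    (hgr : ∃ C : ℝ, ∀ (n : ℕ) (z z' : Sp a K N), z.1 = z'.1 →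
      dist (f.symm^[n] z) (f.symm^[n] z') ≤ C * kap ^ n * dist z z')
    (hk0 : 0 ≤ kap) (hkl : kap < lam) :
    ∃ D' : ℝ, Con f (torusMap A) (linMap A) cov (Es : Set (Fin a → ℝ)) D' lam kap := by
  obtain ⟨C₁, h₁⟩ := hlip
  obtain ⟨C₂, h₂⟩ := hgr
  obtain ⟨C₃, h₃, h₃'⟩ := linMap_bdd A
  have hl : 0 < lam := lt_trans one_pos h.one_lt
  set E := |D| + |C₁| + |C₂| + C₃ with hE
  have e0 : D ≤ E := by
    have := le_abs_self D
    have := abs_nonneg C₁
    have := abs_nonneg C₂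
    linarith
  have e1 : C₁ ≤ E := by
    have := le_abs_self C₁
    have := abs_nonneg D
    have := abs_nonneg C₂
    linarith
  have e2 : C₂ ≤ E := by
    have := le_abs_self C₂
    have := abs_nonneg C₁
    have := abs_nonneg D
    linarith
  have e3 : C₃ ≤ E := by
    have := abs_nonneg C₁
    have := abs_nonneg C₂
    have := abs_nonneg D
    linarith
  refine ⟨E, ?_⟩
  constructor
  · intro x u; rw [torusMap_add, torusMap_cov]
  · exact hb
  · intro x y hxy
    have := congrArg (torusMap B) hxy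
    rwa [torusMap_mul, torusMap_mul, h.mulBA, torusMap_one, torusMap_one] at this
  · exact cov_dist
  · exact fun v hv => h.invs.1 v hv
  · intro v hv n
    refine (h.cons v hv n).trans ?_
    exact mul_le_mul_of_nonneg_right (mul_le_mul_of_nonneg_right e0 (by positivity)) (norm_nonneg _)
  · exact fun z z' => (h₁ z z').trans (mul_le_mul_of_nonneg_right e1 dist_nonneg)
  · exact fun u => (h₃' u).trans (mul_le_mul_of_nonneg_right e3 (norm_nonneg _))
  · intro n z z' hz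
    refine (h₂ n z z' hz).trans ?_
    exact mul_le_mul_of_nonneg_right (mul_le_mul_of_nonneg_right e2 (by positivity)) dist_nonneg
  · positivity
  · exact hk0
  · exact h.one_lt
  · exact hkl

omit [∀ i, MeasurableSpace (K i)] [∀ i, BorelSpace (K i)] [MeasurableSpace N] [BorelSpace N] in
/-- the stable side -/
theorem side {A B : Matrix (Fin a) (Fin a) ℤ} {Es Eu : Submodule ℝ (Fin a → ℝ)} {D lam : ℝ}
    {b : N ≃ₜ N} {kap : ℝ} {f : Sp a K N ≃ₜ Sp a K N} (h : HypSplit A B Es Eu D lam)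
    (hnb : Normalises G b) (hf : InCls K G A b f) (hcl : IsClosed (Act G N))
    (hlip : ∃ C : ℝ, ∀ z z', dist (f.symm z) (f.symm z') ≤ C * dist z z')
    (hgr : ∃ C : ℝ, ∀ (n : ℕ) (z z' : Sp a K N), z.1 = z'.1 →
      dist (f.symm^[n] z) (f.symm^[n] z') ≤ C * kap ^ n * dist z z')
    (hk0 : 0 ≤ kap) (hkl : kap < lam) {ρ : ℝ} (hρ0 : 0 ≤ ρ) (hρ1 : ρ < 1) (hρ : ρ * kap < 1) :
    ∃ (Θ : Es → C(Sp a K N, Sp a K N)) (Λ : Es → Es), Surjective Λ ∧ (∀ v, Θ v ∈ Cls a K G N) ∧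
      (∀ v z, f (Θ v z) = Θ (Λ v) (f z)) ∧
      (∀ v, Tendsto (fun n => Θ (Λ^[n] v)) atTop (𝓝 (ContinuousMap.id _))) ∧
      (∀ z z', OnLeaf f ρ z z' → ∃ v, z' = Θ v z) ∧
      (∀ u v : Es, (Θ u).comp (Θ v) = Θ (u + v)) ∧ Θ 0 = ContinuousMap.id _ ∧ Continuous Θ ∧
      ∀ v z, (Θ v z).1 = z.1 + cov v.1 := by
  obtain ⟨D', hc⟩ := con_of h hf.1 hlip hgr hk0 hkl
  obtain ⟨C, hC, Θ, hΘ⟩ := hc.exists_theta
  set Λ : Es → Es := fun v => ⟨linMap A v.1, (h.invs.1 v.1 v.2)⟩ with hΛ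
  have hΛn : ∀ (n : ℕ) (v : Es), (Λ^[n] v).1 = (linMap A)^[n] v.1 := by
    intro n
    induction n with
    | zero => intro v; rfl
    | succ n ih => intro v; rw [iterate_succ_apply, iterate_succ_apply, ih]
  have hadd : ∀ u v : Es, (Θ u.1).comp (Θ v.1) = Θ (u + v).1 := fun u v =>
    Con.theta_add (linMap_add A) (fun u v => funext fun i => AddCircle.coe_add (1 : ℝ) (u i) (v i))
      (hΘ _ u.2).1 (hΘ _ v.2).1 (hΘ _ (u + v).2).1
  refine ⟨fun v => Θ v.1, Λ, ?_, ?_, ?_, ?_, ?_, hadd, ?_, ?_, fun v z => hc.theta_fst (hΘ _ v.2).1 z⟩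
  · intro v
    refine ⟨⟨linMap B v.1, (h.invs.2 v.1 v.2)⟩, Subtype.ext ?_⟩
    exact h.swap.linBA v.1
  · intro v
    refine (Cls_closed hcl).mem_of_tendsto (hΘ v.1 v.2).1 (Eventually.of_forall fun n => ?_)
    exact gs_mem f (linMap A) cov (Cls a K G N) Cls_tr (fun g hg => Cls_cnj h.mulBA hnb hf hg) n v.1
  · intro v z
    exact Con.theta_comm (hΘ v.1 v.2).1 (hΘ _ (h.invs.1 v.1 v.2)).1 z
  · intro v
    rw [tendsto_iff_dist_tendsto_zero]
    have hl : 0 < lam := lt_trans one_pos h.one_lt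
    have hl1 : 1 / lam < 1 := (div_lt_one hl).2 h.one_lt
    have h1 : ∀ n, dist (Θ (Λ^[n] v).1) (ContinuousMap.id _) ≤ C * (D' * (1 / lam) ^ n * ‖v.1‖) := by
      intro n
      refine ((hΘ _ (Λ^[n] v).2).2).trans (mul_le_mul_of_nonneg_left ?_ hC)
      rw [hΛn]
      exact hc.con v.1 v.2 n
    have h2 : Tendsto (fun n : ℕ => C * (D' * (1 / lam) ^ n * ‖v.1‖)) atTop (𝓝 0) := by
      have := (((tendsto_pow_atTop_nhds_zero_of_lt_one (by positivity) hl1).const_mul D').mul_const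
        ‖v.1‖).const_mul C
      simpa using this
    exact squeeze_zero (fun n => dist_nonneg) h1 h2
  · rintro z z' ⟨C', hz⟩
    have hsub : ∀ x y, torusMap A (x - y) = torusMap A x - torusMap A y := by
      intro x y
      have := torusMap_add A (x - y) y
      rw [sub_add_cancel] at this
      rw [this, add_sub_cancel_right]
    have hit : ∀ (n : ℕ) (x y : Fin a → UnitAddCircle),
        (torusMap A)^[n] (x - y) = (torusMap A)^[n] x - (torusMap A)^[n] y := by
      intro n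
      induction n with
      | zero => intro x y; rfl
      | succ n ih =>
        intro x y
        rw [iterate_succ_apply, iterate_succ_apply, iterate_succ_apply, hsub, ih]
    have h1 : ∀ n : ℕ, ‖(torusMap A)^[n] (z'.1 - z.1)‖ ≤ C' * ρ ^ n := by
      intro n
      rw [hit, ← hc.itfst, ← hc.itfst, ← dist_eq_norm, dist_comm]
      refine le_trans ?_ (hz n)
      rw [Prod.dist_eq]
      exact le_max_left _ _
    have h2 : Tendsto (fun n : ℕ => C' * ρ ^ n) atTop (𝓝 0) := by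
      simpa using (tendsto_pow_atTop_nhds_zero_of_lt_one hρ0 hρ1).const_mul C'
    obtain ⟨v, hv, hvx⟩ := h.stable (z'.1 - z.1) (squeeze_zero (fun n => norm_nonneg _) h1 h2)
    refine ⟨⟨v, hv⟩, ?_⟩
    exact hc.leaf hC hΘ hρ0 hρ hz hv (by rw [hvx]; abel)
  · have h1 := (hΘ (0 : Es).1 (0 : Es).2).2
    rw [Submodule.coe_zero, norm_zero, mul_zero] at h1
    exact dist_le_zero.1 h1
  · refine LipschitzWith.continuous (K := ⟨C, hC⟩) (LipschitzWith.of_dist_le_mul fun u v => ?_)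
    refine (ContinuousMap.dist_le (by positivity)).2 fun z => ?_
    have h1 : Θ u.1 z = Θ (u - v).1 (Θ v.1 z) := by
      have h2 := hadd (u - v) v
      rw [sub_add_cancel] at h2
      rw [← h2]; rfl
    show dist (Θ u.1 z) (Θ v.1 z) ≤ C * dist u v
    rw [h1]
    have h3 := ContinuousMap.dist_apply_le_dist (f := Θ (u - v).1) (g := ContinuousMap.id _) (Θ v.1 z)
    refine h3.trans ((hΘ _ (u - v).2).2.trans (le_of_eq ?_))
    rw [dist_eq_norm]; rfl

end

end Pool.PSTow
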