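import Pool.Agent.Work.MP_adbfe6_an.Tow.Abs

/-!
# MP_adbfe6_an, towers: triangular maps of finite products of compact groups
-/

open MeasureTheory Set Filter Topology Function

namespace Pool.PSTow

/-- conjugation of a map by a homeomorphism -/
def cnj {R R' : Type} [TopologicalSpace R] [TopologicalSpace R'] (e : R ≃ₜ R') (g : C(R, R)) :
    C(R', R') := ⟨fun w => e (g (e.symm w)), by fun_prop⟩

theorem TE_transport {R R' : Type} [MetricSpace R] [CompactSpace R] [MeasurableSpace R]
    [BorelSpace R] [MetricSpace R'] [CompactSpace R'] [MeasurableSpace R'] [BorelSpace R']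
    (e : R ≃ₜ R') (ρ : Measure R) (ρ' : Measure R') (he : MeasurePreserving e ρ ρ')
    (T : Set C(R, R)) (T' : Set C(R', R')) (hTT : ∀ g ∈ T, cnj e g ∈ T') (h : TE ρ' T') :
    TE ρ T := by
  have hes : MeasurePreserving e.symm ρ' ρ := by
    have := MeasurePreserving.symm e.toMeasurableEquiv (by simpa using! he)
    simpa using! this
  have key : ∀ g : C(R, R), ∀ w, e.symm (cnj e g (e w)) = g w := by
    intro g w; simp [cnj]
  refine ⟨?_, ?_⟩
  · intro g hg
    have h1 := (hes.comp (h.1 _ (hTT g hg))).comp he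
    have h2 : (⇑e.symm ∘ ⇑(cnj e g)) ∘ ⇑e = ⇑g := funext fun w => key g w
    rw [h2] at h1; exact h1
  · intro G hG htr φ hφm hφ hinv
    obtain ⟨c, hc⟩ := h.2 (cnj e '' G) (by rintro _ ⟨g, hg, rfl⟩; exact hTT g (hG hg)) (by
      intro w w'
      obtain ⟨g, hg, hgw⟩ := htr (e.symm w) (e.symm w')
      refine ⟨_, ⟨g, hg, rfl⟩, ?_⟩
      show e (g (e.symm w)) = w'
      rw [hgw]; simp) (fun w => φ (e.symm w)) (hφm.comp hes.measurable)
      ((hes.integrable_comp hφm.aestronglyMeasurable).2 hφ) (by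
      rintro _ ⟨g, hg, rfl⟩
      have h1 := hes.quasiMeasurePreserving.ae (hinv g hg)
      filter_upwards [h1] with w hw
      show φ (e.symm (e (g (e.symm w)))) = φ (e.symm w)
      rw [e.symm_apply_apply]; exact hw)
    refine ⟨c, ?_⟩
    have h1 := he.quasiMeasurePreserving.ae hc
    filter_upwards [h1] with w hw
    rw [← hw]; simp

/-- triangular maps of the product of the groups `K i` -/
def Tri {k : ℕ} (K : Fin k → Type) [∀ i, Group (K i)] [∀ i, MetricSpace (K i)] :
    Set C(∀ i, K i, ∀ i, K i) :=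
  {g | ∀ (i : Fin k) (z z' : ∀ i, K i), (∀ j < i, z j = z' j) →
    (g z' i)⁻¹ * g z i = (z' i)⁻¹ * z i}

/-- `z ↦ (z 0, z ∘ succ)` -/
def splitHomeo {k : ℕ} (K : Fin (k + 1) → Type) [∀ i, TopologicalSpace (K i)] :
    (∀ i, K i) ≃ₜ K 0 × (∀ i : Fin k, K ((0 : Fin (k + 1)).succAbove i)) where
  toEquiv := (Fin.insertNthEquiv K 0).symm
  continuous_toFun := by
    show Continuous fun z : (∀ i, K i) => (z 0, fun i : Fin k => z ((0 : Fin (k + 1)).succAbove i))
    fun_prop
  continuous_invFun := by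
    show Continuous fun p : K 0 × (∀ i : Fin k, K ((0 : Fin (k + 1)).succAbove i)) =>
      Fin.insertNth 0 p.1 p.2
    exact Continuous.finInsertNth 0 continuous_fst continuous_snd

theorem TE_pi : ∀ (k : ℕ) (K : Fin k → Type) [∀ i, Group (K i)] [∀ i, MetricSpace (K i)]
    [∀ i, CompactSpace (K i)] [∀ i, IsTopologicalGroup (K i)] [∀ i, MeasurableSpace (K i)]
    [∀ i, BorelSpace (K i)] (μ : ∀ i, Measure (K i)) [∀ i, IsProbabilityMeasure (μ i)]
    [∀ i, (μ i).IsMulLeftInvariant] [∀ i, (μ i).IsMulRightInvariant],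
    TE (Measure.pi μ) (Tri K) := by
  intro k
  induction k with
  | zero =>
    intro K _ _ _ _ _ _ μ _ _ _
    refine ⟨?_, ?_⟩
    · intro g _
      have : (⇑g : (∀ i, K i) → ∀ i, K i) = id := by
        funext z; exact Subsingleton.elim _ _
      rw [this]; exact MeasurePreserving.id _
    · intro G _ _ φ _ _ _
      refine ⟨φ default, Eventually.of_forall fun w => ?_⟩
      rw [Subsingleton.elim w default]
  | succ k ih =>
    intro K _ _ _ _ _ _ μ _ _ _
    refine TE_transport (splitHomeo K) (Measure.pi μ)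
      ((μ 0).prod (Measure.pi fun j => μ ((0 : Fin (k + 1)).succAbove j)))
      (measurePreserving_piFinSuccAbove μ 0) (Tri K)
      (Sk {a : C(K 0, K 0) | ∃ r, ∀ y, a y = r * y}
        (Tri fun j => K ((0 : Fin (k + 1)).succAbove j))) ?_
      (TE_step (μ 0) _ _ _ (TE_group (μ 0)) ?_ (ih _ _))
    · intro g hg
      have hs0 : ∀ p : K 0 × (∀ i : Fin k, K ((0 : Fin (k + 1)).succAbove i)),
          (splitHomeo K).symm p 0 = p.1 := fun p => by
        show Fin.insertNth (α := K) 0 p.1 p.2 0 = p.1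
        simp
      have hss : ∀ (p : K 0 × (∀ i : Fin k, K ((0 : Fin (k + 1)).succAbove i))) (j : Fin k),
          (splitHomeo K).symm p ((0 : Fin (k + 1)).succAbove j) = p.2 j := fun p j => by
        exact Fin.insertNth_apply_succAbove (α := K) 0 p.1 p.2 j
      have h0 : ∀ z z' : (∀ i, K i), (g z' 0)⁻¹ * g z 0 = (z' 0)⁻¹ * z 0 := fun z z' =>
        hg 0 z z' (fun j hj => absurd hj (Fin.not_lt_zero j))
      refine ⟨?_, ?_⟩
      · refine ⟨⟨fun y => g (fun _ => 1) 0 * y, by fun_prop⟩, ⟨g (fun _ => 1) 0, fun y => rfl⟩, ?_⟩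
        intro y w
        show g ((splitHomeo K).symm (y, w)) 0 = g (fun _ => 1) 0 * y
        have h1 := h0 ((splitHomeo K).symm (y, w)) (fun _ => 1)
        rw [hs0] at h1
        rw [inv_one, one_mul, inv_mul_eq_iff_eq_mul] at h1
        exact h1
      · intro y
        refine ⟨sec y (cnj (splitHomeo K) g), ?_, fun w => rfl⟩
        intro i w w' hww
        show (g ((splitHomeo K).symm (y, w')) ((0 : Fin (k + 1)).succAbove i))⁻¹ *
          g ((splitHomeo K).symm (y, w)) ((0 : Fin (k + 1)).succAbove i) = (w' i)⁻¹ * w i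
        rw [hg ((0 : Fin (k + 1)).succAbove i) ((splitHomeo K).symm (y, w))
          ((splitHomeo K).symm (y, w')), hss, hss]
        intro j hj
        rcases Fin.eq_self_or_eq_succAbove 0 j with rfl | ⟨j', rfl⟩
        · rw [hs0, hs0]
        · rw [hss, hss]
          exact hww j' ((Fin.succAbove_lt_succAbove_iff (p := (0 : Fin (k + 1)))).1 hj)
    · rintro a ⟨r, hr⟩ y hy y'
      have h1 : r * y = y := by rw [← hr y]; exact hy
      have h2 : r = 1 := by simpa using h1
      rw [hr, h2, one_mul]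

/-- The class of the maps of `X × Π K` over the identity automorphisms. -/
theorem TE_tower {X : Type} [AddCommGroup X] [MetricSpace X] [CompactSpace X]
    [IsTopologicalAddGroup X] [MeasurableSpace X] [BorelSpace X] (m : Measure X)
    [IsProbabilityMeasure m] [m.IsAddLeftInvariant] {k : ℕ} (K : Fin k → Type) [∀ i, Group (K i)]
    [∀ i, MetricSpace (K i)] [∀ i, CompactSpace (K i)] [∀ i, IsTopologicalGroup (K i)]
    [∀ i, MeasurableSpace (K i)] [∀ i, BorelSpace (K i)] (μ : ∀ i, Measure (K i))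
    [∀ i, IsProbabilityMeasure (μ i)] [∀ i, (μ i).IsMulLeftInvariant]
    [∀ i, (μ i).IsMulRightInvariant] :
    TE (m.prod (Measure.pi μ)) (Sk {a : C(X, X) | ∃ r, ∀ y, a y = r + y} (Tri K)) := by
  refine TE_step m _ _ _ (TE_addgroup m) ?_ (TE_pi k K μ)
  rintro a ⟨r, hr⟩ y hy y'
  have h1 : r + y = y := by rw [← hr y]; exact hy
  have h2 : r = 0 := by simpa using h1
  rw [hr, h2, zero_add]

end Pool.PSTow
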