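import Pool.Agent.Work.MP_adbfe6_an.Tow.Pi

/-!
# MP_adbfe6_an, towers: triangular maps preserve the product of the Haar measures
-/

open MeasureTheory Set Filter Topology Function

namespace Pool.PSTow

theorem mp_skew {Y R : Type} [MetricSpace Y] [CompactSpace Y] [MeasurableSpace Y] [BorelSpace Y]
    [MetricSpace R] [CompactSpace R] [MeasurableSpace R] [BorelSpace R] (μ : Measure Y)
    [IsProbabilityMeasure μ] (ρ : Measure R) [IsProbabilityMeasure ρ] (g : C(Y × R, Y × R))
    (a : Y → Y) (ha : MeasurePreserving a μ μ) (hga : ∀ z, (g z).1 = a z.1)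
    (hs : ∀ y, MeasurePreserving (sec y g) ρ ρ) : MeasurePreserving g (μ.prod ρ) (μ.prod ρ) := by
  have h1 : MeasurePreserving (fun p : Y × R => (a p.1, (g (p.1, p.2)).2)) (μ.prod ρ) (μ.prod ρ) := by
    refine MeasurePreserving.skew_product (g := fun y w => (g (y, w)).2) ha ?_ ?_
    · exact (by fun_prop : Continuous fun p : Y × R => (g (p.1, p.2)).2).measurable
    · exact Eventually.of_forall fun y => (hs y).map_eq
  have h2 : (⇑g : Y × R → Y × R) = fun p => (a p.1, (g (p.1, p.2)).2) := by
    funext p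
    exact Prod.ext (hga p) rfl
  rw [h2]; exact h1

theorem mp_pi : ∀ (k : ℕ) (K : Fin k → Type) [∀ i, Group (K i)] [∀ i, MetricSpace (K i)]
    [∀ i, CompactSpace (K i)] [∀ i, IsTopologicalGroup (K i)] [∀ i, MeasurableSpace (K i)]
    [∀ i, BorelSpace (K i)] (μ : ∀ i, Measure (K i)) [∀ i, IsProbabilityMeasure (μ i)]
    [∀ i, (μ i).IsMulLeftInvariant] (β : ∀ i, K i → K i)
    (_ : ∀ i, MeasurePreserving (β i) (μ i) (μ i)) (g : C(∀ i, K i, ∀ i, K i))
    (_ : ∀ (i : Fin k) (z z' : ∀ i, K i), (∀ j < i, z j = z' j) →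
      (g z' i)⁻¹ * g z i = β i ((z' i)⁻¹ * z i)), MeasurePreserving g (Measure.pi μ) (Measure.pi μ) := by
  intro k
  induction k with
  | zero =>
    intro K _ _ _ _ _ _ μ _ _ β hβ g hg
    have : (⇑g : (∀ i, K i) → ∀ i, K i) = id := by
      funext z; exact Subsingleton.elim _ _
    rw [this]; exact MeasurePreserving.id _
  | succ k ih =>
    intro K _ _ _ _ _ _ μ _ _ β hβ g hg
    have he : MeasurePreserving (splitHomeo K) (Measure.pi μ)
      ((μ 0).prod (Measure.pi fun j => μ ((0 : Fin (k + 1)).succAbove j))) :=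
      measurePreserving_piFinSuccAbove μ 0
    have hes : MeasurePreserving (splitHomeo K).symm
        ((μ 0).prod (Measure.pi fun j => μ ((0 : Fin (k + 1)).succAbove j))) (Measure.pi μ) := by
      have := MeasurePreserving.symm (splitHomeo K).toMeasurableEquiv (by simpa using! he)
      simpa using! this
    have hs0 : ∀ p : K 0 × (∀ i : Fin k, K ((0 : Fin (k + 1)).succAbove i)),
        (splitHomeo K).symm p 0 = p.1 := fun p => by
      show Fin.insertNth (α := K) 0 p.1 p.2 0 = p.1
      simp
    have hss : ∀ (p : K 0 × (∀ i : Fin k, K ((0 : Fin (k + 1)).succAbove i))) (j : Fin k),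
        (splitHomeo K).symm p ((0 : Fin (k + 1)).succAbove j) = p.2 j := fun p j => by
      exact Fin.insertNth_apply_succAbove (α := K) 0 p.1 p.2 j
    have h0 : ∀ z z' : (∀ i, K i), (g z' 0)⁻¹ * g z 0 = β 0 ((z' 0)⁻¹ * z 0) := fun z z' =>
      hg 0 z z' (fun j hj => absurd hj (Fin.not_lt_zero j))
    have hconj : MeasurePreserving (cnj (splitHomeo K) g)
        ((μ 0).prod (Measure.pi fun j => μ ((0 : Fin (k + 1)).succAbove j)))
        ((μ 0).prod (Measure.pi fun j => μ ((0 : Fin (k + 1)).succAbove j))) := by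
      refine mp_skew (μ 0) _ _ (fun y => g (fun _ => 1) 0 * β 0 y)
        ((measurePreserving_mul_left (μ 0) _).comp (hβ 0)) ?_ ?_
      · intro z
        show g ((splitHomeo K).symm z) 0 = g (fun _ => 1) 0 * β 0 z.1
        have h1 := h0 ((splitHomeo K).symm z) (fun _ => 1)
        rw [hs0] at h1
        rw [inv_one, one_mul, inv_mul_eq_iff_eq_mul] at h1
        exact h1
      · intro y
        refine ih _ _ (fun j => β ((0 : Fin (k + 1)).succAbove j)) (fun j => hβ _) _ ?_
        intro i w w' hww
        show (g ((splitHomeo K).symm (y, w')) ((0 : Fin (k + 1)).succAbove i))⁻¹ *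
          g ((splitHomeo K).symm (y, w)) ((0 : Fin (k + 1)).succAbove i) = _
        rw [hg ((0 : Fin (k + 1)).succAbove i) ((splitHomeo K).symm (y, w))
          ((splitHomeo K).symm (y, w')), hss, hss]
        intro j hj
        rcases Fin.eq_self_or_eq_succAbove 0 j with rfl | ⟨j', rfl⟩
        · rw [hs0, hs0]
        · rw [hss, hss]
          exact hww j' ((Fin.succAbove_lt_succAbove_iff (p := (0 : Fin (k + 1)))).1 hj)
    have h1 := (hes.comp hconj).comp he
    have h2 : (⇑(splitHomeo K).symm ∘ ⇑(cnj (splitHomeo K) g)) ∘ ⇑(splitHomeo K) = ⇑g := by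
      funext w
      show (splitHomeo K).symm (splitHomeo K (g ((splitHomeo K).symm (splitHomeo K w)))) = g w
      rw [Homeomorph.symm_apply_apply, Homeomorph.symm_apply_apply]
    rw [h2] at h1; exact h1

theorem haar_of_prob {G : Type} [Group G] [TopologicalSpace G] [IsTopologicalGroup G]
    [CompactSpace G] [MeasurableSpace G] [BorelSpace G] (μ : Measure G) [IsProbabilityMeasure μ]
    [μ.IsMulLeftInvariant] : μ.IsHaarMeasure :=
  Measure.isHaarMeasure_of_isCompact_nonempty_interior μ univ isCompact_univ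
    (by simp) (by simp) (by simp)

theorem right_of_left {G : Type} [Group G] [TopologicalSpace G] [IsTopologicalGroup G]
    [CompactSpace G] [MeasurableSpace G] [BorelSpace G] (μ : Measure G) [IsProbabilityMeasure μ]
    [μ.IsMulLeftInvariant] : μ.IsMulRightInvariant := by
  have hh : μ.IsHaarMeasure := haar_of_prob μ
  refine ⟨fun g => ?_⟩
  have h1 : (μ.map (fun x => x * g)).IsHaarMeasure := inferInstance
  have h2 : IsProbabilityMeasure (μ.map (fun x => x * g)) :=
    Measure.isProbabilityMeasure_map (measurable_mul_const g).aemeasurable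
  exact Measure.isHaarMeasure_eq_of_isProbabilityMeasure _ _

end Pool.PSTow
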