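import Pool.Agent.Work.MP_adbfe6_an.Tow.Pres
import Pool.Agent.Work.MP_adbfe6_an.Tow.Defs

/-!
# MP_adbfe6_an, towers: the top level, a locally compact group acting on a compact space
-/

open MeasureTheory Set Filter Topology Function

namespace Pool.PSTow

section Act

variable {G N : Type} [Group G] [TopologicalSpace G] [IsTopologicalGroup G]
  [LocallyCompactSpace G] [SecondCountableTopology G] [T2Space G]
  [MetricSpace N] [CompactSpace N] [MeasurableSpace N] [BorelSpace N] [MulAction G N]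
  [ContinuousSMul G N]

/-- the map of an element of the group -/
def toC (G N : Type) [TopologicalSpace G] [TopologicalSpace N] [SMul G N] [ContinuousSMul G N] :
    C(G, C(N, N)) := ContinuousMap.curry ⟨fun p : G × N => p.1 • p.2, continuous_smul⟩

omit [IsTopologicalGroup G] [LocallyCompactSpace G] [SecondCountableTopology G] [T2Space G]
  [CompactSpace N] [MeasurableSpace N] [BorelSpace N] in
theorem toC_apply (g : G) (w : N) : toC G N g w = g • w := rfl

/-- a transitive set of elements of a locally compact group has no invariant functions -/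
theorem TE_act (ν : Measure N) [IsProbabilityMeasure ν]
    (hG : ∀ g : G, MeasurePreserving (fun w : N => g • w) ν ν) : TE ν (Act G N) := by
  refine ⟨?_, ?_⟩
  · rintro h ⟨g, hg⟩
    have : (⇑h : N → N) = fun w => g • w := funext hg
    rw [this]; exact hG g
  · intro T hT htr φ hφm hφi hinv
    -- the stabiliser
    obtain ⟨S, hSmem⟩ : ∃ S : Subgroup G, ∀ g, g ∈ S ↔ ∀ᵐ w ∂ν, φ (g • w) = φ w :=
      ⟨{ carrier := {g | ∀ᵐ w ∂ν, φ (g • w) = φ w}
         mul_mem' := by
          intro g g' h h'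
          show ∀ᵐ w ∂ν, φ ((g * g') • w) = φ w
          have h1 := (hG g').quasiMeasurePreserving.ae h
          filter_upwards [h1, h'] with w h2 h3
          rw [mul_smul, h2, h3]
         one_mem' := by
          show ∀ᵐ w ∂ν, φ ((1 : G) • w) = φ w
          exact Eventually.of_forall fun w => by rw [one_smul]
         inv_mem' := by
          intro g h
          show ∀ᵐ w ∂ν, φ (g⁻¹ • w) = φ w
          have h1 := (hG g⁻¹).quasiMeasurePreserving.ae h
          filter_upwards [h1] with w h2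
          rw [← h2, smul_inv_smul] }, fun g => Iff.rfl⟩
    have hScl : IsClosed (S : Set G) := by
      refine isClosed_of_closure_subset fun g hg => ?_
      obtain ⟨u, hu, hlim⟩ := mem_closure_iff_seq_limit.1 hg
      exact (hSmem _).2 (closed_inv ν hφi (fun n => toC G N (u n)) (toC G N g)
        (((toC G N).continuous.tendsto g).comp hlim) (fun n => hG (u n)) (hG g)
        (fun n => (hSmem _).1 (hu n)))
    have : LocallyCompactSpace S := hScl.locallyCompactSpace
    letI : MeasurableSpace S := borel S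
    have : BorelSpace S := ⟨rfl⟩
    have : SecondCountableTopology S :=
      TopologicalSpace.Subtype.secondCountableTopology (S : Set G)
    obtain ⟨m, hm⟩ : ∃ m : Measure S, m.IsHaarMeasure := ⟨Measure.haar, inferInstance⟩
    have hms : MeasurableSet {p : S × N | φ (p.1 • p.2) = φ p.2} :=
      measurableSet_eq_fun (hφm.comp
        (by fun_prop : Continuous fun p : S × N => p.1 • p.2).measurable) (hφm.comp measurable_snd)
    have h2 : ∀ᵐ p ∂(m.prod ν), p ∈ {p : S × N | φ (p.1 • p.2) = φ p.2} := by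
      rw [Measure.ae_prod_mem_iff_ae_ae_mem hms]
      exact Eventually.of_forall fun s => (hSmem _).1 s.2
    have h3 : ∀ᵐ w ∂ν, ∀ᵐ s ∂m, φ (s • w) = φ w := by
      have h4 : ∀ᵐ p ∂(ν.prod m), p.swap ∈ {p : S × N | φ (p.1 • p.2) = φ p.2} :=
        Measure.measurePreserving_swap.quasiMeasurePreserving.ae h2
      exact Measure.ae_ae_of_ae_prod h4
    obtain ⟨w₀, hw₀⟩ := h3.exists
    refine ⟨φ w₀, ?_⟩
    filter_upwards [h3] with w hw
    obtain ⟨h, hhT, hhw⟩ := htr w₀ w
    obtain ⟨g, hg⟩ := hT hhT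
    have hgS : g ∈ S := by
      rw [hSmem]
      filter_upwards [hinv h hhT] with z hz
      rw [← hz, hg]
    have h4 : ∀ᵐ s ∂m, φ ((s * ⟨g, hgS⟩) • w₀) = φ w₀ :=
      (quasiMeasurePreserving_mul_right m (⟨g, hgS⟩ : S)).ae hw₀
    obtain ⟨s, h5, h6⟩ := (hw.and h4).exists
    rw [← h5, ← h6, mul_smul]
    congr 2
    show w = g • w₀
    rw [← hg, hhw]

end Act

section PiN

/-- triangular maps of `Π K × N` -/
def TriN {k : ℕ} (K : Fin k → Type) [∀ i, Group (K i)] [∀ i, MetricSpace (K i)] (G N : Type)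
    [TopologicalSpace N] [SMul G N] : Set C((∀ i, K i) × N, (∀ i, K i) × N) :=
  {g | (∀ (i : Fin k) (z z' : (∀ i, K i) × N), (∀ j < i, z.1 j = z'.1 j) →
    ((g z').1 i)⁻¹ * (g z).1 i = (z'.1 i)⁻¹ * z.1 i) ∧
    ∀ y : ∀ i, K i, ∃ h ∈ Act G N, ∀ w, (g (y, w)).2 = h w}

/-- `(z, w) ↦ (z 0, (z ∘ succ, w))` -/
def splitHomeoN {k : ℕ} (K : Fin (k + 1) → Type) [∀ i, TopologicalSpace (K i)] (N : Type)
    [TopologicalSpace N] :
    (∀ i, K i) × N ≃ₜ K 0 × ((∀ i : Fin k, K ((0 : Fin (k + 1)).succAbove i)) × N) :=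
  ((splitHomeo K).prodCongr (Homeomorph.refl N)).trans (Homeomorph.prodAssoc _ _ _)

theorem splitN_symm {k : ℕ} (K : Fin (k + 1) → Type) [∀ i, TopologicalSpace (K i)] (N : Type)
    [TopologicalSpace N] (y : K 0) (w : (∀ i : Fin k, K ((0 : Fin (k + 1)).succAbove i))) (x : N) :
    (splitHomeoN K N).symm (y, (w, x)) = ((splitHomeo K).symm (y, w), x) := rfl

theorem splitN_mp {k : ℕ} (K : Fin (k + 1) → Type) [∀ i, MetricSpace (K i)]
    [∀ i, CompactSpace (K i)] [∀ i, MeasurableSpace (K i)]
    [∀ i, BorelSpace (K i)] (μ : ∀ i, Measure (K i)) [∀ i, IsProbabilityMeasure (μ i)] (N : Type)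
    [MetricSpace N] [CompactSpace N] [MeasurableSpace N] [BorelSpace N] (ν : Measure N)
    [IsProbabilityMeasure ν] : MeasurePreserving (splitHomeoN K N) ((Measure.pi μ).prod ν)
      ((μ 0).prod ((Measure.pi fun j => μ ((0 : Fin (k + 1)).succAbove j)).prod ν)) := by
  have h1 : MeasurePreserving (splitHomeo K) (Measure.pi μ)
      ((μ 0).prod (Measure.pi fun j => μ ((0 : Fin (k + 1)).succAbove j))) :=
    measurePreserving_piFinSuccAbove μ 0
  have h2 := h1.prod (MeasurePreserving.id ν)
  have h3 := (measurePreserving_prodAssoc (μ 0)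
    (Measure.pi fun j => μ ((0 : Fin (k + 1)).succAbove j)) ν).comp h2
  exact h3

variable (G N : Type) [Group G] [TopologicalSpace G] [IsTopologicalGroup G]
  [LocallyCompactSpace G] [SecondCountableTopology G] [T2Space G]
  [MetricSpace N] [CompactSpace N] [MeasurableSpace N] [BorelSpace N] [MulAction G N]
  [ContinuousSMul G N] (ν : Measure N) [IsProbabilityMeasure ν]

theorem TE_piN (hG : ∀ g : G, MeasurePreserving (fun w : N => g • w) ν ν) :
    ∀ (k : ℕ) (K : Fin k → Type) [∀ i, Group (K i)] [∀ i, MetricSpace (K i)]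
    [∀ i, CompactSpace (K i)] [∀ i, IsTopologicalGroup (K i)] [∀ i, MeasurableSpace (K i)]
    [∀ i, BorelSpace (K i)] (μ : ∀ i, Measure (K i)) [∀ i, IsProbabilityMeasure (μ i)]
    [∀ i, (μ i).IsMulLeftInvariant] [∀ i, (μ i).IsMulRightInvariant],
    TE ((Measure.pi μ).prod ν) (TriN K G N) := by
  intro k
  induction k with
  | zero =>
    intro K _ _ _ _ _ _ μ _ _ _
    refine TE_transport (Homeomorph.uniqueProd (∀ i, K i) N) ((Measure.pi μ).prod ν) ν
      measurePreserving_snd (TriN K G N) (Act G N) ?_ (TE_act ν hG)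
    intro g hg
    obtain ⟨h, ⟨γ, hγ⟩, hh⟩ := hg.2 default
    refine ⟨γ, fun w => ?_⟩
    rw [← hγ, ← hh]
    rfl
  | succ k ih =>
    intro K _ _ _ _ _ _ μ _ _ _
    refine TE_transport (splitHomeoN K N) ((Measure.pi μ).prod ν)
      ((μ 0).prod ((Measure.pi fun j => μ ((0 : Fin (k + 1)).succAbove j)).prod ν))
      (splitN_mp K μ N ν) (TriN K G N)
      (Sk {a : C(K 0, K 0) | ∃ r, ∀ y, a y = r * y}
        (TriN (fun j => K ((0 : Fin (k + 1)).succAbove j)) G N)) ?_
      (TE_step (μ 0) _ _ _ (TE_group (μ 0)) ?_ (ih _ _))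
    · intro g hg
      have hs0 : ∀ p : K 0 × (∀ i : Fin k, K ((0 : Fin (k + 1)).succAbove i)),
          (splitHomeo K).symm p 0 = p.1 := fun p => by
        show Fin.insertNth (α := K) 0 p.1 p.2 0 = p.1
        simp
      have hss : ∀ (p : K 0 × (∀ i : Fin k, K ((0 : Fin (k + 1)).succAbove i))) (j : Fin k),
          (splitHomeo K).symm p ((0 : Fin (k + 1)).succAbove j) = p.2 j := fun p j => by
        exact Fin.insertNth_apply_succAbove (α := K) 0 p.1 p.2 j
      have h0 : ∀ z z' : (∀ i, K i) × N, ((g z').1 0)⁻¹ * (g z).1 0 = (z'.1 0)⁻¹ * z.1 0 :=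
        fun z z' => hg.1 0 z z' (fun j hj => absurd hj (Fin.not_lt_zero j))
      obtain ⟨w₀⟩ : Nonempty N := nonempty_of_isProbabilityMeasure ν
      refine ⟨?_, ?_⟩
      · refine ⟨⟨fun y => (g (fun _ => 1, w₀)).1 0 * y, by fun_prop⟩,
          ⟨(g (fun _ => 1, w₀)).1 0, fun y => rfl⟩, ?_⟩
        rintro y ⟨w, x⟩
        show (g ((splitHomeo K).symm (y, w), x)).1 0 = (g (fun _ => 1, w₀)).1 0 * y
        have h1 := h0 ((splitHomeo K).symm (y, w), x) (fun _ => 1, w₀)
        simp only at h1
        rw [hs0] at h1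
        rw [inv_one, one_mul, inv_mul_eq_iff_eq_mul] at h1
        exact h1
      · intro y
        refine ⟨sec y (cnj (splitHomeoN K N) g), ⟨?_, ?_⟩, fun w => rfl⟩
        · rintro i ⟨w, x⟩ ⟨w', x'⟩ hww
          show ((g ((splitHomeo K).symm (y, w'), x')).1 ((0 : Fin (k + 1)).succAbove i))⁻¹ *
            (g ((splitHomeo K).symm (y, w), x)).1 ((0 : Fin (k + 1)).succAbove i) =
            (w' i)⁻¹ * w i
          rw [hg.1 ((0 : Fin (k + 1)).succAbove i) ((splitHomeo K).symm (y, w), x)
            ((splitHomeo K).symm (y, w'), x')]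
          · simp only
            rw [hss, hss]
          · intro j hj
            simp only
            rcases Fin.eq_self_or_eq_succAbove 0 j with rfl | ⟨j', rfl⟩
            · rw [hs0, hs0]
            · rw [hss, hss]
              exact hww j' ((Fin.succAbove_lt_succAbove_iff (p := (0 : Fin (k + 1)))).1 hj)
        · intro w
          obtain ⟨h, hh, hhw⟩ := hg.2 ((splitHomeo K).symm (y, w))
          exact ⟨h, hh, fun x => hhw x⟩
    · rintro a ⟨r, hr⟩ y hy y'
      have h1 : r * y = y := by rw [← hr y]; exact hy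
      have h2 : r = 1 := by simpa using h1
      rw [hr, h2, one_mul]

end PiN

end Pool.PSTow
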